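import Pool.Agent.OVW.StmtsC

/-! # Block C, STP: one operation -/

namespace Pool.Agent.OVW.FC

open Classical

set_option linter.unusedSectionVars false

namespace STP

variable {M : Type} [Arith M] [HasWorld M] {R : Set (M → M)} [IsWorld R]
variable {a : M} {U : M → Wd M → Prop} {C : Cnd M}

theorem rec_QB (hU : Rec R (fun p : M × Wd M => U p.1 p.2)) (hC : C.IsRec R) (q n : M) :
    Rec R (QB a U C q n) :=
  RecC.QB (γ := FSet M (Wd M)) hU (C := fun _ => C) hC.recC (q := fun _ => q) (Rec.const q)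
    (n := fun _ => n) (Rec.const n) (B := fun B => B) Rec.id

theorem bn_spec (hU : Rec R (fun p : M × Wd M => U p.1 p.2)) (hC : C.IsRec R) {q n : M}
    (h : QQ a U C q n) : Bn a U C q n ∈ (W a n).powerset ∧ QB a U C q n (Bn a U C q n) :=
  hchoose_mem (rec_QB hU hC q n) h

theorem one_ne_zero' : (1 : M) ≠ 0 := one_ne_zero

theorem okY (h0 : 0 < a) (hU : Rec R (fun p : M × Wd M => U p.1 p.2)) (hC : C.IsRec R)
    (hok : C.Ok a) (q : M) : (stepY a U q C).Ok a := by
  refine ⟨?_, ?_, ?_⟩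
  · rintro z ⟨-, hq, hz⟩
    exact hok.dom z ((bn_spec hU hC hq).2.1 z hz)
  · rintro n ⟨hE, hq⟩
    have hb := bn_spec hU hC hq
    show hpow a n ≤ cnt a n (stepY a U q C).D * (16 * (C.d * C.d))
    have hD : Rec R (stepY a U q C).D :=
      (RecC.isRec (RecC.stepY (γ := M) (C := fun _ => C) hU hC.recC (q := fun _ => q)
        (Rec.const q)) 0).D
    have e : (W a n).filter (stepY a U q C).D = Bn a U C q n := by
      apply FSet.ext
      intro z
      rw [mem_filter hD]
      constructor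
      · rintro ⟨hz, -, -, h⟩
        rwa [(mem_W.1 hz).1] at h
      · intro h
        have hz : z ∈ W a n := mem_powerset.1 hb.1 z h
        have e := (mem_W.1 hz).1
        refine ⟨hz, ?_, ?_, ?_⟩
        · rw [e]; exact hE
        · rw [e]; exact hq
        · rw [e]; exact h
    unfold cnt
    rw [e]
    exact hb.2.2.1
  · have := hok.pos
    show 0 < 16 * (C.d * C.d)
    positivity

theorem dn_pos (h0 : 0 < a) {d : M} (hd : 0 < d) (n : M) : 0 < dn a d n := by
  have h1 : 0 < (Wlt (a + 2) (n + 1)).card := by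
    rw [card_pos]
    refine ⟨wnil, mem_Wlt.2 ⟨?_, ?_⟩⟩
    · rw [len_wnil]
      exact lt_succ.2 (zero_le' n)
    · intro i hi
      rw [len_wnil] at hi
      exact absurd hi (by simp)
  have h2 : 0 < hpow a n := hpow_pos h0 n
  unfold dn
  positivity

theorem ok (h0 : 0 < a) (hU : Rec R (fun p : M × Wd M => U p.1 p.2)) (hC : C.IsRec R)
    (hok : C.Ok a) (o : Op M) : (stepC a U o C).Ok a := by
  unfold stepC
  split_ifs
  · exact okY h0 hU hC hok _
  · exact ⟨hok.dom, fun n h => hok.dense n h.1, hok.pos⟩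
  · exact ⟨fun z hz => hz.1, fun n h => h.2, dn_pos h0 hok.pos _⟩

end STP

theorem t_STP (h2 : StmtWLG) (h4 : StmtEXI) : StmtSTP := by
  intro M _ _ R _ a U C o h0 hU hC hok
  refine ⟨STP.ok h0 hU hC hok o, ?_⟩
  intro ho
  obtain ⟨w1, -, -, w4, -, -⟩ := h2 M a
  have hnil : ∀ C' : Cnd M, C'.s = C.s → (∀ z, C'.D z → C.D z) → C.Ext a C' := by
    intro C' hs hD
    rw [h4 M a C C']
    refine ⟨wnil, ?_, ?_, w1, ?_, ?_⟩
    · rw [len_wnil]
      exact wnil_mem_W _
    · rw [hs, append_nil]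
    · intro i hi
      rw [len_wnil] at hi
      exact absurd hi (by simp)
    · intro z hz
      refine ⟨hok.dom z (hD z hz), fun y _ hm => ?_⟩
      rw [(w4 y).1 hm, nil_append]
      exact hD z hz
  unfold stepC
  split_ifs with e1 e2
  · refine hnil _ rfl ?_
    rintro z ⟨-, hq, hz⟩
    exact (STP.bn_spec hU hC hq).2.1 z hz
  · exact hnil _ rfl (fun z hz => hz)
  · rcases ho with h | h | h
    · exact absurd h e1
    · exact absurd h e2
    · rw [h4 M a C _]
      exact ⟨_, h.1, rfl, h.2.1, h.2.2.1, fun z hz => hz⟩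

end Pool.Agent.OVW.FC
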