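import Pool.Agent.OVW.StmtsC
import Pool.Agent.OVW.C.STP

/-! # Block C, CLO: the question for a new variable word has no negative answer -/

namespace Pool.Agent.OVW.FC

open Classical

set_option linter.unusedSectionVars false

namespace CLO

variable {M : Type} [Arith M] [HasWorld M] {R : Set (M → M)} [IsWorld R]
variable {a : M} {C : Cnd M}

/-- density in terms of probabilities -/
theorem dense_hpr {D : Wd M → Prop} (hD : Rec R D) (h0 : 0 < a) {d n : M} (hd : 0 < d)
    (h : hpow a n ≤ cnt a n D * d) : 1 / (d : KK M) ≤ hpr (W a n) D := by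
  rw [hpr_eq_card hD, card_W]
  have h1 : (0 : KK M) < ((hpow a n : M) : KK M) := by
    rw [← cK_zero, cK_lt]
    exact hpow_pos h0 n
  have h2 : (0 : KK M) < (d : KK M) := by
    rw [← cK_zero, cK_lt]
    exact hd
  rw [div_le_div_iff₀ h2 h1, one_mul, ← cK_mul, cK_le]
  exact h

end CLO

theorem t_CLO (h2 : StmtWLG) (h3 : StmtWLI) : StmtCLO := by
  intro M _ _ R _ a U C q h0 hU hC hok hinf hlin hq
  by_contra hcon
  push Not at hcon
  have hrY : RecC R (fun _ : M => stepY a U q C) :=
    RecC.stepY (γ := M) (C := fun _ => C) hU hC.recC (q := fun _ => q) (Rec.const q)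
  have hD : Rec R (stepY a U q C).D := (hrY.isRec 0).D
  have hokY := STP.okY h0 hU hC hok q
  have hdpos : (0 : KK M) < ((stepY a U q C).d : KK M) := by
    rw [← cK_zero, cK_lt]
    exact hokY.pos
  obtain ⟨x, hx, w, hw, hXx, hLx, hLw, hX⟩ := hlin (1 / ((stepY a U q C).d : KK M))
    (stepY a U q C).D C.E (by positivity) hD hC.E hinf
    (fun n hn => CLO.dense_hpr hD h0 hokY.pos (hokY.dense n ⟨hn, hcon n hn⟩))
  obtain ⟨k1, k2, k3, k4⟩ := h3 M a x w h0 hx hw
  set t := x ++ wsing (a + 1) ++ w with ht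
  have htl : t.len = x.len + 1 + w.len := by
    rw [ht, len_append, len_append, len_wsing]
  have hQ : QQ a U C q t.len := hcon _ (by rw [htl]; exact hLw)
  obtain ⟨-, -, hB⟩ := (STP.bn_spec hU hC hQ).2
  have hDx : C.D x := (STP.bn_spec hU hC hXx.2.1).2.1 x hXx.2.2
  have hphi : Phi a U C q t := by
    refine ⟨by rw [htl]; exact k1, k2, k4 _ hDx, ?_⟩
    unfold Ques
    rw [if_pos hq]
    refine ⟨x.len, ?_, ?_⟩
    · rw [htl, add_assoc]
      exact lt_of_lt_of_le (lt_succ.2 le_rfl) (add_le_add_right le_self_add _)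
    · rw [ht, get_append_left (by rw [len_append, len_wsing]; exact lt_succ.2 le_rfl)]
      have := get_append_right (u := x) (v := wsing (a + 1)) 0
      rw [add_zero] at this
      rw [this, get_wsing]
  have htW : t ∈ Wlt (a + 2) (t.len + 1) := by
    rw [mem_Wlt_iff]
    exact ⟨t.len, lt_succ.2 le_rfl, hphi.1⟩
  obtain ⟨y, -, hy, hyB⟩ := hB t htW hphi wnil (by rw [tsub_self]; exact wnil_mem_W a)
  apply hyB
  rw [append_nil]
  obtain ⟨c, hc, rfl⟩ := (k3 y).1 hy
  have h4 := (hX c hc).2.2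
  have e : (x ++ wsing c ++ wsub a w c).len = t.len := by
    rw [htl, len_append, len_append, len_wsing, len_wsub]
  rwa [e] at h4

end Pool.Agent.OVW.FC
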