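import Pool.Agent.OVW.StmtsC

/-! # Block C, COL: a colour with infinitely many levels -/

namespace Pool.Agent.OVW.FC

open Classical

set_option linter.unusedSectionVars false

namespace COL

variable {M : Type} [Arith M] [HasWorld M] {R : Set (M → M)} [IsWorld R]
variable {a l : M} {F : Wd M → M}

/-- the colour class in the words over `a` letters -/
def Kl (a : M) (F : Wd M → M) (c : M) (z : Wd M) : Prop := z ∈ W a z.len ∧ F z = c

theorem rec_Kl (hF : Rec R F) (c : M) : Rec R (Kl a F c) := by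
  unfold Kl
  fun_prop

/-- the sum of the sizes of the colour classes -/
theorem sum_classes (hF : Rec R F) (hl : ∀ w : Wd M, w ∈ W a w.len → F w < l) (m : M) :
    ((hpow a m : M) : KK M) = hsum (rng l) (fun c => ((cnt a m (Kl a F c) : M) : KK M)) := by
  rw [← card_W, card_cast, hsum_fiber (R := R) (S := W a m) (T := rng l) (φ := F) hF (by fun_prop)
    (fun w hw => mem_rng.2 (hl w (by rw [(mem_W.1 hw).1]; exact hw)))]
  refine hsum_congr fun c _ => ?_
  unfold cnt
  rw [card_cast]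
  have e : (W a m).filter (fun w => F w = c) = (W a m).filter (Kl a F c) := by
    apply filter_congr
    intro w hw
    have hw' : w ∈ W a w.len := by rw [(mem_W.1 hw).1]; exact hw
    exact ⟨fun h => ⟨hw', h⟩, fun h => h.2⟩
  rw [e]

/-- for every level some colour class is large -/
theorem exists_class (hF : Rec R F) (hl : ∀ w : Wd M, w ∈ W a w.len → F w < l)
    (hl0 : 0 < l) (m : M) : ∃ c < l, hpow a m ≤ cnt a m (Kl a F c) * l := by
  have hr : Rec R (fun c => cnt a m (Kl a F c)) := by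
    refine Rec.cnt (p := fun c => Kl a F c) (by fun_prop) (by fun_prop) ?_
    unfold Kl
    fun_prop
  have hr' : Rec R (fun c => ((cnt a m (Kl a F c) : M) : KK M)) := by fun_prop
  obtain ⟨c, hc, hmax⟩ := exists_max_on (R := R) hr' ⟨0, mem_rng.2 hl0⟩
  refine ⟨c, mem_rng.1 hc, ?_⟩
  have h1 := sum_classes hF hl m
  have h2 : hsum (rng l) (fun c => ((cnt a m (Kl a F c) : M) : KK M)) ≤
      hsum (rng l) (fun _ => ((cnt a m (Kl a F c) : M) : KK M)) :=
    hsum_le_hsum (R := R) hr' (by fun_prop) hmax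
  rw [hsum_const, card_rng] at h2
  rw [← cK_le, cK_mul, h1, mul_comm]
  exact h2

end COL

open COL in
theorem t_COL : StmtCOL := by
  intro M _ _ R₀ R₁ _ _ a l F hR hj h0 hF hl
  have hl0 : 0 < l := by
    have h1 : (wnil : Wd M) ∈ W a (wnil : Wd M).len := by
      rw [len_wnil]
      exact wnil_mem_W a
    exact lt_of_le_of_lt zero_le (hl wnil h1)
  have hrc : RecC R₀ (fun c : M => Cnd0 a F c l) :=
    RecC.Cnd0 (γ := M) hF (c := fun c => c) (l := fun _ => l) Rec.id (Rec.const l)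
  have hE : Rec R₀ (fun x : M × M => (Cnd0 a F x.1 l).E x.2) := hrc.E
  have hex : ∀ m, ∃ c < l, (Cnd0 a F c l).E m := fun m => exists_class hF hl hl0 m
  suffices h : ∃ c < l, (Cnd0 a F c l).Inf by
    obtain ⟨c, hc, hinf⟩ := h
    exact ⟨c, hc, hrc.isRec c, ⟨fun z hz => hz.1, fun n hn => hn, hl0⟩, hinf⟩
  by_contra hcon
  have hb : ∀ c < l, ∃ b, ∀ m, b < m → ¬ (Cnd0 a F c l).E m := by
    intro c hc
    by_contra h
    apply hcon
    refine ⟨c, hc, fun b => ?_⟩
    by_contra h'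
    exact h ⟨b, fun m hm hE => h' ⟨m, hm, hE⟩⟩
  have r1 : Rec R₀ (fun x : (M × M) × M => x.1.2 < x.2 → ¬ (Cnd0 a F x.1.1 l).E x.2) := by
    have h' : Rec R₀ (fun x : (M × M) × M => (Cnd0 a F x.1.1 l).E x.2) :=
      Rec.comp (g := fun x : M × M => (Cnd0 a F x.1 l).E x.2)
        (f := fun x : (M × M) × M => (x.1.1, x.2)) hE (by fun_prop)
    exact Rec.imp (by fun_prop) (Rec.not h')
  have r2 : Rec R₁ (fun x : M × M => ∀ m, x.2 < m → ¬ (Cnd0 a F x.1 l).E m) :=
    Rec.jump_all hj (p := fun (x : M × M) m => x.2 < m → ¬ (Cnd0 a F x.1 l).E m) r1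
  obtain ⟨N, hN⟩ := Rec.collection (R := R₁)
    (P := fun c b => ∀ m, b < m → ¬ (Cnd0 a F c l).E m) r2 hb
  obtain ⟨c, hc, hEc⟩ := hex N
  obtain ⟨b, hb1, hb2⟩ := hN c hc
  exact hb2 N hb1 hEc

end Pool.Agent.OVW.FC
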