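import Pool.Agent.OVW.StmtsC

/-! # Block C, EXI -/

namespace Pool.Agent.OVW.FC

open Classical

set_option linter.unusedSectionVars false

theorem t_EXI : StmtEXI := by
  intro M _ _ a C C'
  constructor
  · rintro ⟨h1, h2, h3, h4, h5⟩
    exact ⟨_, h2, h1, h3, h4, h5⟩
  · rintro ⟨t, ht, hs, h3, h4, h5⟩
    have e : C'.s.drop C.s.len = t := by
      rw [hs]
      exact drop_append_left rfl
    unfold Cnd.Ext
    rw [e]
    exact ⟨hs, ht, h3, h4, h5⟩

end Pool.Agent.OVW.FC
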