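import Pool.Agent.OVW.StmtsC

/-!
# Block C: the extension relation is reflexive and transitive
-/

namespace Pool.Agent.OVW.FC

open Classical

set_option linter.unusedSectionVars false

theorem t_EXR (h1 : StmtWAP) (h2 : StmtWLG) (h3 : StmtWCL) (h4 : StmtEXI) : StmtEXR := by
  intro M _ _ a
  obtain ⟨g1, g2, g3, g4, g5, g6⟩ := h2 M a
  refine ⟨fun C hC => ?_, fun C C' C'' hCC hCC' => ?_⟩
  · rw [h4 M a C C]
    refine ⟨wnil, ?_, (append_nil _).symm, g1, ?_, ?_⟩
    · rw [len_wnil]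
      exact wnil_mem_W _
    · intro i hi
      rw [len_wnil] at hi
      exact absurd hi (by simp)
    · intro z hz
      refine ⟨hC z hz, fun y _ hy => ?_⟩
      rw [(g4 y).1 hy, nil_append]
      exact hz
  · rw [h4 M a] at hCC hCC' ⊢
    obtain ⟨t, ht, es, hl, hcl, hD⟩ := hCC
    obtain ⟨t', ht', es', hl', hcl', hD'⟩ := hCC'
    refine ⟨t ++ t', ?_, ?_, g2 t t' hl hl', ?_, ?_⟩
    · rw [len_append]
      exact append_mem_W ht ht'
    · rw [es', es, append_assoc]
    · rw [h3 M a C.D t t' hl']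
      refine ⟨hcl, fun i hi hi' y₁ y₂ hy₁ hy₂ => ?_⟩
      have e : (t'.take i).len = i := by
        rw [len_take]
        exact min_eq_left hi.le
      have hy₂W : y₂ ∈ W a i := by
        have h5 := hy₂.1
        rwa [e] at h5
      have h6 := hD y₂ (hcl' i hi hi' y₂ hy₂W hy₂)
      exact h6.2 y₁ hy₁.1 hy₁
    · intro z hz
      obtain ⟨hz1, hz2⟩ := hD' z hz
      refine ⟨hz1, fun y _ hy => ?_⟩
      obtain ⟨y₁, y₂, rfl, hy₁, hy₂⟩ := (h1 M a t t' y hl').1 hy
      have h6 := hD _ (hz2 y₂ hy₂.1 hy₂)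
      have h7 := h6.2 y₁ hy₁.1 hy₁
      rwa [append_assoc]

end Pool.Agent.OVW.FC
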