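import Pool.Agent.OVW.C.STP

/-! # Block C, FRC: a negative answer remains true -/

namespace Pool.Agent.OVW.FC

open Classical

set_option linter.unusedSectionVars false

theorem t_FRC (h2 : StmtWLG) (h4 : StmtEXI) : StmtFRC := by
  intro M _ _ R _ a U C C' q h0 hU hC hok hq hext hz hUq
  obtain ⟨t, ht, hs, hl, hcl, hD⟩ := (h4 M a _ C').1 hext
  obtain ⟨z, hz⟩ := hz
  obtain ⟨hzW, hz'⟩ := hD z hz
  obtain ⟨-, -, -, -, -, w6⟩ := h2 M a
  obtain ⟨y0, hy0⟩ := w6 h0 t ht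
  have hlen : ∀ y : Wd M, y ∈ W a t.len → (y ++ z).len = t.len + z.len := by
    intro y hy
    rw [len_append, (mem_W.1 hy).1]
  have hy0' := hz' y0 hy0.1 hy0
  obtain ⟨-, hqq, -⟩ := hy0'
  rw [hlen y0 hy0.1] at hqq
  have hb := (STP.bn_spec hU hC hqq).2
  have hphi : Phi a U C q t := by
    refine ⟨ht, hl, ?_, ?_⟩
    · intro i hi hg y hy hm
      obtain ⟨-, hq', hy'⟩ := hcl i hi hg y hy hm
      exact (STP.bn_spec hU hC hq').2.1 y hy'
    · unfold Ques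
      rw [if_neg hq]
      rw [hs] at hUq
      exact hUq
  obtain ⟨y, hy, hm, hn⟩ := hb.2.2 t (mem_Wlt_iff.2 ⟨t.len, lt_succ.2 le_self_add, ht⟩) hphi z (by
    rw [add_tsub_cancel_left]
    exact hzW)
  obtain ⟨-, -, hy'⟩ := hz' y hy hm
  rw [hlen y hy] at hy'
  exact hn hy'

end Pool.Agent.OVW.FC
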