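import Pool.Agent.OVW.StmtsC

/-! # Block C, HIS: the conditions given by histories -/

namespace Pool.Agent.OVW.FC

open Classical

set_option linter.unusedSectionVars false

namespace HIS

variable {M : Type} [Arith M] [HasWorld M] {R : Set (M → M)} [IsWorld R]
variable {a : M} {U : M → Wd M → Prop} {C0 : Cnd M}

theorem trunc_eq_of_agree {N : M} {C C' : Cnd M} (h : Agree a N C C') :
    trunc a N C = trunc a N C' := by
  obtain ⟨h1, h2, h3, h4⟩ := h
  unfold trunc
  have e1 : (Wlt a (N + 1 - C.s.len)).filter C.D = (Wlt a (N + 1 - C'.s.len)).filter C'.D := by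
    rw [← h1]
    exact filter_congr h3
  have e2 : (rng (N + 1 - C.s.len)).filter C.E = (rng (N + 1 - C'.s.len)).filter C'.E := by
    rw [← h1]
    exact filter_congr fun n hn => h4 n (mem_rng.1 hn)
  rw [e1, e2, h2, h1]

theorem agree_untrunc {N : M} {C : Cnd M} (hC : C.IsRec R) :
    Agree a N (untrunc (trunc a N C)) C := by
  refine ⟨rfl, rfl, ?_, ?_⟩
  · intro z hz
    show z ∈ (Wlt a (N + 1 - C.s.len)).filter C.D ↔ C.D z
    rw [mem_filter hC.D]
    exact ⟨fun h => h.2, fun h => ⟨hz, h⟩⟩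
  · intro n hn
    show n ∈ (rng (N + 1 - C.s.len)).filter C.E ↔ C.E n
    rw [mem_filter hC.E, mem_rng]
    exact ⟨fun h => h.2, fun h => ⟨hn, h⟩⟩

/-- A condition is determined by its truncations. -/
theorem read_off {C : Cnd M} (hC : C.IsRec R) (hd : ∀ z, C.D z → z ∈ W a z.len) :
    (⟨(trunc a 0 C).1, fun z => z ∈ (trunc a ((trunc a 0 C).1.len + z.len) C).2.1,
      fun n => n ∈ (trunc a ((trunc a 0 C).1.len + n) C).2.2.1, (trunc a 0 C).2.2.2⟩ : Cnd M) = C := by
  have e1 : ∀ n : M, C.s.len + n + 1 - C.s.len = n + 1 := by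
    intro n
    rw [add_assoc, add_sub_self']
  apply Cnd.ext
  · rfl
  · funext z
    apply propext
    show z ∈ (Wlt a (C.s.len + z.len + 1 - C.s.len)).filter C.D ↔ C.D z
    rw [mem_filter hC.D, e1]
    constructor
    · exact fun h => h.2
    · intro h
      exact ⟨mem_Wlt_iff.2 ⟨z.len, lt_succ.2 le_rfl, hd z h⟩, h⟩
  · funext n
    apply propext
    show n ∈ (rng (C.s.len + n + 1 - C.s.len)).filter C.E ↔ C.E n
    rw [mem_filter hC.E, e1, mem_rng]
    exact ⟨fun h => h.2, fun h => ⟨lt_succ.2 le_rfl, h⟩⟩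
  · rfl

/-- If all runs are the truncations of `C`, then `cndI` is `C`. -/
theorem cndI_eq {C : Cnd M} (hC : C.IsRec R) (hd : ∀ z, C.D z → z ∈ W a z.len) {h : Wd M} {i : M}
    (hr : ∀ N, run a U C0 h N i = trunc a N C) : cndI a U C0 h i = C := by
  rw [← read_off hC hd]
  unfold cndI
  simp only [hr]

theorem run_zero (h : Wd M) (N : M) : run a U C0 h N 0 = trunc a N C0 := by
  unfold run
  exact prec_zero _ _

theorem run_succ (hU : Rec R (fun p : M × Wd M => U p.1 p.2)) (h : Wd M) (N i : M) :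
    run a U C0 h N (i + 1) =
      trunc a N (stepC a U (dec (h.get i)) (untrunc (run a U C0 h N i))) := by
  unfold run
  refine prec_succ (R := R) _ ?_ i
  have h1 : RecC R (fun x : M × St M => FC.stepC a U (dec (h.get x.1) : Op M)
      (FC.untrunc x.2)) :=
    RecC.stepC hU (RecC.untrunc (by fun_prop)) (by fun_prop)
  exact Rec.trunc h1 (by fun_prop)

theorem run_step (h2 : StmtLOC) (hU : Rec R (fun p : M × Wd M => U p.1 p.2)) {C : Cnd M}
    (hC : C.IsRec R) {h : Wd M} {i : M} (hr : ∀ N, run a U C0 h N i = trunc a N C) (N : M) :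
    run a U C0 h N (i + 1) = trunc a N (stepC a U (dec (h.get i)) C) := by
  rw [run_succ hU, hr]
  exact trunc_eq_of_agree (h2 M a U N _ _ _ (agree_untrunc hC))

theorem isRec_step (hU : Rec R (fun p : M × Wd M => U p.1 p.2)) {C : Cnd M}
    (hC : C.IsRec R) (o : Op M) : (stepC a U o C).IsRec R :=
  RecC.isRec (RecC.stepC hU (C := fun _ : M => C) (hC.recC) (o := fun _ : M => o)
    (Rec.const o)) 0

theorem isRec_cndI (hU : Rec R (fun p : M × Wd M => U p.1 p.2)) (hC : C0.IsRec R) (h : Wd M)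
    (i : M) : (cndI a U C0 h i).IsRec R :=
  RecC.isRec (RecC.cndI hU hC (h := fun _ : M => h) (Rec.const h) (i := fun _ : M => i)
    (Rec.const i)) 0

/-- The main induction. -/
theorem main (h1 : StmtSTP) (h2 : StmtLOC) (ha : 0 < a)
    (hU : Rec R (fun p : M × Wd M => U p.1 p.2)) (hC : C0.IsRec R) (hok : C0.Ok a) (h : Wd M) :
    ∀ i, (∀ N, run a U C0 h N i = trunc a N (cndI a U C0 h i)) ∧ (cndI a U C0 h i).Ok a := by
  have key : ∀ i, ∀ b : M × Wd M, run a U C0 h b.1 i = trunc a b.1 (cndI a U C0 h i) ∧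
      ((cndI a U C0 h i).D b.2 → b.2 ∈ W a b.2.len) ∧
      ((cndI a U C0 h i).E b.1 → hpow a b.1 ≤ cnt a b.1 (cndI a U C0 h i).D *
        (cndI a U C0 h i).d) ∧ 0 < (cndI a U C0 h i).d := by
    have hI : RecC R (fun i : M => cndI a U C0 h i) :=
      RecC.cndI hU hC (h := fun _ : M => h) (Rec.const h) Rec.id
    apply ind_pi1 (R := R) (q := fun i (b : M × Wd M) =>
      run a U C0 h b.1 i = trunc a b.1 (cndI a U C0 h i) ∧
      ((cndI a U C0 h i).D b.2 → b.2 ∈ W a b.2.len) ∧
      ((cndI a U C0 h i).E b.1 → hpow a b.1 ≤ cnt a b.1 (cndI a U C0 h i).D *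
        (cndI a U C0 h i).d) ∧ 0 < (cndI a U C0 h i).d)
    · have r1 : Rec R (fun x : M × M × Wd M => run a U C0 h x.2.1 x.1) :=
        Rec.run hU hC (by fun_prop) (by fun_prop) (by fun_prop)
      have hI' : RecC R (fun x : M × M × Wd M => cndI a U C0 h x.1) := hI.comp Rec.fst_
      have r2 : Rec R (fun x : M × M × Wd M => trunc a x.2.1 (cndI a U C0 h x.1)) :=
        Rec.trunc hI' (by fun_prop)
      have r3 : Rec R (fun x : M × M × Wd M => (cndI a U C0 h x.1).D x.2.2) :=
        Rec.comp (g := fun x : M × Wd M => (cndI a U C0 h x.1).D x.2)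
          (f := fun x : M × M × Wd M => (x.1, x.2.2)) hI.D (by fun_prop)
      have r4 : Rec R (fun x : M × M × Wd M => (cndI a U C0 h x.1).E x.2.1) :=
        Rec.comp (g := fun x : M × M => (cndI a U C0 h x.1).E x.2)
          (f := fun x : M × M × Wd M => (x.1, x.2.1)) hI.E (by fun_prop)
      have r5 : Rec R (fun x : M × M × Wd M => (cndI a U C0 h x.1).d) := hI'.d
      have r6 : Rec R (fun x : M × M × Wd M => cnt a x.2.1 (cndI a U C0 h x.1).D) :=
        Rec.cnt (by fun_prop) (by fun_prop) (p := fun x : M × M × Wd M => (cndI a U C0 h x.1).D)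
          (Rec.comp (g := fun x : M × Wd M => (cndI a U C0 h x.1).D x.2)
          (f := fun x : (M × M × Wd M) × Wd M => (x.1.1, x.2)) hI.D (by fun_prop))
      exact Rec.and (Rec.eq r1 r2) (Rec.and (Rec.imp r3 (by fun_prop))
        (Rec.and (Rec.imp r4 (Rec.le (by fun_prop) (Rec.mul r6 r5))) (Rec.lt (by fun_prop) r5)))
    · have e : cndI a U C0 h 0 = C0 := cndI_eq hC hok.dom (fun N => run_zero h N)
      intro b
      rw [e]
      exact ⟨run_zero h b.1, hok.dom b.2, hok.dense b.1, hok.pos⟩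
    · intro i hi b
      have hr : ∀ N, run a U C0 h N i = trunc a N (cndI a U C0 h i) := fun N => (hi (N, wnil)).1
      have hok' : (cndI a U C0 h i).Ok a :=
        ⟨fun z => (hi (0, z)).2.1, fun n => (hi (n, wnil)).2.2.1, (hi (0, wnil)).2.2.2⟩
      have hs := (h1 M R a U (cndI a U C0 h i) (dec (h.get i)) ha hU (isRec_cndI hU hC h i) hok').1
      have hr' := run_step h2 hU (isRec_cndI hU hC h i) hr
      have e : cndI a U C0 h (i + 1) = stepC a U (dec (h.get i)) (cndI a U C0 h i) :=
        cndI_eq (isRec_step hU (isRec_cndI hU hC h i) _) hs.dom hr'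
      rw [e]
      exact ⟨hr' b.1, hs.dom b.2, hs.dense b.1, hs.pos⟩
  intro i
  exact ⟨fun N => (key i (N, wnil)).1, fun z => (key i (0, z)).2.1,
    fun n => (key i (n, wnil)).2.2.1, (key i (0, wnil)).2.2.2⟩

theorem run_append (hU : Rec R (fun p : M × Wd M => U p.1 p.2)) (h : Wd M) (c N : M) :
    run a U C0 (h ++ wsing c) N h.len = run a U C0 h N h.len := by
  unfold run
  apply prec_congr
  intro i hi x
  rw [get_append_left hi]

end HIS

theorem t_HIS (h1 : StmtSTP) (h2 : StmtLOC) : StmtHIS := by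
  intro M _ _ R _ a U C0 ha hU hC hok
  refine ⟨?_, ?_, ?_⟩
  · have e : (wnil : Wd M).len = 0 := len_wnil
    unfold cnd
    rw [e]
    exact HIS.cndI_eq hC hok.dom (fun N => HIS.run_zero _ N)
  · intro h
    exact (HIS.main h1 h2 ha hU hC hok h h.len).2
  · intro h o
    have hm := HIS.main h1 h2 ha hU hC hok h h.len
    have hm' := HIS.main h1 h2 ha hU hC hok (h ++ wsing (enc o)) h.len
    have hr : ∀ N, run a U C0 (h ++ wsing (enc o)) N h.len = trunc a N (cnd a U C0 h) := by
      intro N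
      rw [HIS.run_append hU]
      exact hm.1 N
    have hrec : (cnd a U C0 h).IsRec R := HIS.isRec_cndI hU hC h h.len
    have hr' := HIS.run_step h2 hU hrec hr
    have hg : (h ++ wsing (enc o)).get h.len = enc o := by
      have := get_append_right (u := h) (v := wsing (enc o : M)) 0
      rw [add_zero, get_wsing] at this
      exact this
    rw [hg, dec_enc] at hr'
    have hs := (h1 M R a U (cnd a U C0 h) o ha hU hrec hm.2).1
    have e : (h ++ wsing (enc o : M)).len = h.len + 1 := by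
      rw [len_append, len_wsing]
    unfold cnd at hr' hs ⊢
    rw [e]
    exact HIS.cndI_eq (HIS.isRec_step hU hrec o) hs.dom hr'

end Pool.Agent.OVW.FC
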