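import Pool.Agent.OVW.StmtsC

/-!
# LI1: the infinite words and the starts
-/

namespace Pool.Agent.OVW.FC

open Classical

set_option linter.unusedSectionVars false

namespace LI1

variable {M : Type} [Arith M] [HasWorld M] {R : Set (M → M)} [IsWorld R] {γ : Type} [Cod M γ]

theorem rec_nst (a : M) {s : γ → Wd M} (hs : Rec R s) : Rec R (fun x => nst a (s x)) := by
  unfold nst
  fun_prop

theorem rec_pst (a : M) {s : γ → Wd M} {j : γ → M} (hs : Rec R s) (hj : Rec R j) :
    Rec R (fun x => pst a (s x) (j x)) := by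
  unfold pst
  apply Rec.least
  · have h1 : Rec R (fun p : γ × M => nst a ((s p.1).take p.2)) := rec_nst a (by fun_prop)
    fun_prop
  · intro x
    exact ⟨(s x).len, Or.inl le_rfl⟩

/-- The consequences of NST. -/
theorem nst_mono (h2 : StmtNST) (a : M) (s t : Wd M) : nst a s ≤ nst a (s ++ t) := by
  rw [(h2 M a s t).1]
  exact le_self_add

theorem lt_len_of_lt_nst (h2 : StmtNST) {a j : M} {s : Wd M} (h : j < nst a s) : j < s.len := by
  obtain ⟨h3, -, -, -, h4⟩ := (h2 M a s wnil).2.1 j h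
  exact h4.trans_lt h3

theorem take_append_take (s t : Wd M) {i : M} (h : s.len ≤ i) :
    ∃ t', (s ++ t).take i = s ++ t' :=
  ⟨_, take_append_of_ge h⟩

theorem K_lt (h2 : StmtNST) {a : M} {U : M → Wd M → Prop} {C0 : Cnd M} {sk : M → Wd M}
    {kk : M → M} {dd : M → Prop} (ht : Traj a U R C0 sk kk dd) :
    ∀ j : M, j < nst a (sk (kk (pr 0 j) + 1)) := by
  have hstep : ∀ q, fs q = 0 → nst a (sk (kk q)) < nst a (sk (kk q + 1)) := by
    intro q hq
    obtain ⟨i, hi1, hi2, hi3⟩ := ht.clo q hq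
    obtain ⟨t, e⟩ := ht.ext (kk q) (kk q + 1) le_self_add
    have h3 := ((h2 M a (sk (kk q + 1)) wnil).2.2.1 i hi2 hi3).1
    rw [e] at h3
    obtain ⟨t', e'⟩ := take_append_take (sk (kk q)) t hi1
    rw [e'] at h3
    rw [e]
    exact (nst_mono h2 a _ _).trans_lt h3
  have hrs := ht.rs
  have hrk := ht.rk
  have hrec : Rec R (fun j : M => j < nst a (sk (kk (pr 0 j) + 1))) := by
    have h3 : Rec R (fun j : M => kk (pr 0 j)) := Rec.comp (g := kk) hrk (by fun_prop)
    have h4 : Rec R (fun j : M => sk (kk (pr 0 j) + 1)) := Rec.comp (g := sk) hrs (by fun_prop)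
    exact Rec.lt Rec.id (rec_nst a h4)
  refine ind_rec hrec ?_ ?_
  · exact lt_of_le_of_lt (zero_le' _) (hstep (pr 0 0) (fs_pr 0 0))
  · intro j hj
    have hq : pr (0 : M) j < pr 0 (j + 1) := by
      apply pr_lt_of
      rw [zero_add, zero_add]
      exact lt_succ.2 le_rfl
    have h3 := ht.mono _ _ hq
    obtain ⟨t, e⟩ := ht.ext (kk (pr 0 j) + 1) (kk (pr 0 (j + 1))) (succ_le.2 h3)
    have h4 := nst_mono h2 a (sk (kk (pr 0 j) + 1)) t
    rw [← e] at h4
    have h5 := hstep (pr 0 (j + 1)) (fs_pr 0 (j + 1))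
    exact (succ_le.2 (hj.trans_le h4)).trans_lt h5

end LI1

open LI1 in
theorem t_LI1 (h2 : StmtNST) : StmtLI1 := by
  intro M _ _ R _ a U C0 sk kk dd ha ht
  have hK := K_lt h2 ht
  have hrs := ht.rs
  have hrk := ht.rk
  have hKr : Rec R (fun j : M => sk (kk (pr 0 j) + 1)) := by
    have h3 : Rec R (fun j : M => kk (pr 0 j)) := Rec.comp (g := kk) hrk (by fun_prop)
    exact Rec.comp (g := sk) hrs (by fun_prop)
  have hcmp : ∀ k k', (∃ t, sk k' = sk k ++ t) ∨ ∃ t, sk k = sk k' ++ t := by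
    intro k k'
    rcases le_total k k' with h | h
    · exact Or.inl (ht.ext _ _ h)
    · exact Or.inr (ht.ext _ _ h)
  have hget : ∀ k k' i, i < (sk k).len → i < (sk k').len → (sk k).get i = (sk k').get i := by
    intro k k' i h1 h3
    rcases hcmp k k' with ⟨t, e⟩ | ⟨t, e⟩
    · rw [e, get_append_left h1]
    · rw [e, get_append_left h3]
  have hpst : ∀ k k' j, j < nst a (sk k) → j < nst a (sk k') →
      pst a (sk k) j = pst a (sk k') j := by
    intro k k' j h1 h3
    rcases hcmp k k' with ⟨t, e⟩ | ⟨t, e⟩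
    · rw [e]
      exact ((h2 M a (sk k) t).2.1 j h1).2.2.2.1.symm
    · rw [e]
      exact ((h2 M a (sk k') t).2.1 j h3).2.2.2.1
  have hlen : ∀ i, i < (sk (kk (pr 0 i) + 1)).len := fun i => lt_len_of_lt_nst h2 (hK i)
  have hA : ∀ k, ∀ i < (sk k).len, (sk (kk (pr 0 i) + 1)).get i = (sk k).get i :=
    fun k i hi => hget _ _ i (hlen i) hi
  have hD : ∀ k, ∀ j < nst a (sk k), pst a (sk (kk (pr 0 j) + 1)) j = pst a (sk k) j :=
    fun k j hj => hpst _ _ j (hK j) hj
  refine ⟨fun i => (sk (kk (pr 0 i) + 1)).get i,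
    fun i => if (sk (kk (pr 0 i) + 1)).get i < a then (sk (kk (pr 0 i) + 1)).get i else a,
    fun j => pst a (sk (kk (pr 0 j) + 1)) j, ?_, ?_, ?_, hA, fun _ => rfl, ?_, ?_, ?_, ?_, ?_⟩
  · exact Rec.get hKr Rec.id
  · have := Rec.get hKr (Rec.id (α := M))
    fun_prop
  · exact rec_pst a hKr Rec.id
  · intro b
    exact ⟨kk (pr 0 b) + 1, hlen b, hK b⟩
  · intro k j hj
    refine ⟨hD k j hj, ?_⟩
    unfold gst
    dsimp only
    rw [hD k j hj]
    rw [hA k j (lt_len_of_lt_nst h2 hj)]
  · intro i hi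
    have h0 := hK 0
    set s := sk (kk (pr 0 0) + 1) with hs
    obtain ⟨h3, h4, h5, -, -⟩ := (h2 M a s wnil).2.1 0 h0
    have hlt : i < s.len := hi.trans h3
    have hno : ∀ j ≤ i, s.get j ≠ a + 1 := by
      intro j hj hja
      have hj1 : j < pst a s 0 := hj.trans_lt hi
      have h6 : j < (s.take (pst a s 0)).len := by
        rw [len_take]
        exact lt_min hj1 (hj1.trans h3)
      have h7 : (s.take (pst a s 0)).get j = a + 1 := by
        rw [get_take hj1]
        exact hja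
      have h8 := ((h2 M a (s.take (pst a s 0)) wnil).2.2.1 j h6 h7).1
      rw [h5] at h8
      exact absurd h8 not_lt_zero
    have hga : s.get i < a := by
      have hw := (mem_W.1 (ht.word (kk (pr 0 0) + 1))).2 i hlt
      rw [← hs] at hw
      by_contra hc
      push Not at hc
      have h9 : s.get i = a ∨ s.get i = a + 1 := by
        rcases hc.eq_or_lt with h | h
        · exact Or.inl h.symm
        · right
          apply le_antisymm
          · have : a + 2 = a + 1 + 1 := by ring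
            rw [this] at hw
            exact lt_succ.1 hw
          · exact succ_le.2 h
      rcases h9 with h9 | h9
      · obtain ⟨j, hj, hj'⟩ := ht.legal (kk (pr 0 0) + 1) i hlt h9
        exact hno j hj.le hj'
      · exact hno i le_rfl h9
    have e : (sk (kk (pr 0 i) + 1)).get i = s.get i := hA _ i hlt
    dsimp only
    rw [e, if_pos hga]
    exact hga.ne
  · intro k
    have h3 := hK (k + 1)
    have h4 := (h2 M a (sk (kk (pr 0 (k + 1)) + 1)) wnil).2.2.2.1 k h3
    have h5 := hD (kk (pr 0 (k + 1)) + 1) k ((lt_succ.2 le_rfl).trans h3)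
    dsimp only
    rw [h5]
    exact h4
  · intro k
    obtain ⟨h3, h4, -⟩ := (h2 M a (sk (kk (pr 0 k) + 1)) wnil).2.1 k (hK k)
    have e := hA (kk (pr 0 k) + 1) _ h3
    dsimp only
    rw [e, h4]
    refine ⟨rfl, if_neg ?_⟩
    exact not_lt.2 (le_self_add)

end Pool.Agent.OVW.FC
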