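import Pool.Agent.OVW.StmtsC

/-!
# LI2: the solution has the colour of the initial condition
-/

namespace Pool.Agent.OVW.FC

open Classical

set_option linter.unusedSectionVars false

theorem t_LI2 (h2 : StmtNST) : StmtLI2 := by
  intro M _ _ R _ a U C0 sk kk dd g h p ha ht hA hB hC hD k y hy hy1 hy2
  obtain ⟨K, -, hK⟩ := hC (k + 1)
  have hkK : k < nst a (sk K) := (lt_succ.2 le_rfl).trans hK
  obtain ⟨e0, -⟩ := hD K k hkK
  obtain ⟨h3, h4, h5, -, -⟩ := (h2 M a (sk K) wnil).2.1 k hkK
  rw [← e0] at h3 h4 h5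
  have hgt : ∀ i < p k, ((sk K).take (p k)).get i = g i := by
    intro i hi
    rw [get_take hi]
    exact (hA K i (hi.trans h3)).symm
  have hlen : ((sk K).take (p k)).len = p k := by
    rw [len_take]
    exact min_eq_left h3.le
  refine ht.cl K (p k) h3 h4 y hy ⟨?_, ?_, ?_⟩
  · rw [hlen]
    exact hy
  · intro i hi hia
    rw [hlen] at hi
    rw [hgt i hi] at hia ⊢
    have hh : h i = g i := by rw [hB i, if_pos hia]
    rw [← hh]
    apply hy1 i hi
    rw [hh]
    exact hia.ne
  · intro i hi hia j hj hja hno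
    rw [hlen] at hi
    have hjk : j < p k := hj.trans hi
    have hjl : j < (sk K).len := hjk.trans h3
    rw [hgt i hi] at hia
    have hja' : (sk K).get j = a + 1 := by
      rw [hgt j hjk] at hja
      rw [← hA K j hjl]
      exact hja
    obtain ⟨h6, h7⟩ := (h2 M a (sk K) wnil).2.2.1 j hjl hja'
    -- the number of the start `j` is `< k`
    have h8 := ((h2 M a ((sk K).take (p k)) wnil).2.2.1 j (by rw [hlen]; exact hjk) hja).1
    rw [take_take, min_eq_left hjk.le, h5] at h8
    set jj := nst a ((sk K).take j) with hjj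
    have h9 : jj + 1 < nst a (sk K) := (succ_le.2 h8).trans_lt hkK
    have e1 : p jj = j := by rw [(hD K jj h6).1]; exact h7
    have hhi : h i = a := by
      rw [hB i, if_neg]
      rw [hia]
      exact lt_irrefl _
    have h10 := hy2 i hi hhi jj (by rw [e1]; exact hj.le) ?_
    · rw [h10, e1]
    · by_contra hc
      push Not at hc
      obtain ⟨h11, h12, -⟩ := (h2 M a (sk K) wnil).2.1 (jj + 1) h9
      have e2 := (hD K (jj + 1) h9).1
      rw [← e2] at h11 h12
      have h13 := (h2 M a (sk K) wnil).2.2.2.1 jj h9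
      rw [← (hD K jj h6).1, ← e2, e1] at h13
      refine hno (p (jj + 1)) hc h13 ?_
      rw [hgt _ (hc.trans_lt hi), hA K _ h11]
      exact h12

end Pool.Agent.OVW.FC
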