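import Pool.Agent.OVW.StmtsC

/-!
# LI3: the jump of the solution
-/

namespace Pool.Agent.OVW.FC

open Classical

set_option linter.unusedSectionVars false

theorem t_LI3 (h1 : StmtSEG) (h2 : StmtNST) (_h3 : StmtUUR) : StmtLI3 := by
  intro M _ _ R₀ R _ _ a u C0 sk kk dd h p hR hu ha ht hC hD hh hp φ hφ
  obtain ⟨e, he⟩ := hu.enum φ hφ
  have hG : Rec R (prf h p) := by
    unfold prf
    fun_prop
  have hS : Segd (prf h p) := (h1 M R).2.2 _ hG
  have hseg : ∀ k n, n ≤ nst a (sk k) → seg (gst a (sk k)) n = seg (prf h p) n := by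
    intro k n hn
    apply (h1 M R).1
    intro i hi
    exact (hD k i (hi.trans_le hn)).2.symm
  have key : ∀ b : M, (∃ n, φ (pr b (seg (prf h p) n)) ≠ 0) ↔ dd (pr (e + 1) b) := by
    intro b
    rw [he _ hS b]
    have hq : fs (pr (e + 1) b) ≠ 0 := by
      rw [fs_pr]
      exact (pos_iff.1 (lt_succ.2 (zero_le' e)))
    have hq1 : fs (pr (e + 1) b) - 1 = e := by
      rw [fs_pr]
      exact add_tsub_cancel_right e 1
    constructor
    · rintro ⟨n, hn⟩
      by_contra hd
      obtain ⟨k, -, hk⟩ := hC n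
      have hno := ht.no _ hq hd (max k (kk (pr (e + 1) b) + 1))
        ((lt_succ.2 le_rfl).trans_le (le_max_right _ _))
      apply hno
      obtain ⟨t, et⟩ := ht.ext k (max k (kk (pr (e + 1) b) + 1)) (le_max_left _ _)
      have hle : n ≤ nst a (sk (max k (kk (pr (e + 1) b) + 1))) := by
        rw [et, (h2 M a (sk k) t).1]
        exact hk.le.trans le_self_add
      refine ⟨n, hle, ?_⟩
      rw [hseg _ _ hle, hq1, sn_pr]
      exact hn
    · intro hd
      obtain ⟨n, hn, hn'⟩ := ht.yes _ hq hd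
      rw [hseg _ _ hn, hq1, sn_pr] at hn'
      exact ⟨n, hn'⟩
  have hd : Rec R (fun b : M => dd (pr (e + 1) b)) :=
    Rec.comp (g := dd) ht.rd (by fun_prop)
  have hfin : Rec R (fun b : M => if dd (pr (e + 1) b) then (1 : M) else 0) :=
    Rec.ite hd (Rec.const 1) (Rec.const 0)
  have e1 : (fun b : M => if ∃ n, φ (pr b (seg (prf h p) n)) ≠ 0 then (1 : M) else 0) =
      fun b : M => if dd (pr (e + 1) b) then (1 : M) else 0 := by
    funext b
    simp only [key b]
  rw [e1]
  exact hfin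

end Pool.Agent.OVW.FC
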