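import Pool.Agent.OVW.StmtsC
import Pool.Agent.OVW.StmtsB8

/-!
# The density Carlson-Simpson theorem for infinitely many levels

`Lin` (block C) follows from `Stmt_DCS` and Lemma 1 of block B.
-/

namespace Pool.Agent.OVW.FC

open Classical

set_option linter.unusedSectionVars false

namespace LIN

variable {M : Type} [Arith M] [HasWorld M] {R : Set (M → M)} [IsWorld R]

/-- The levels: `lev L i` is the `i`-th of a list of elements of `L`. -/
theorem exists_levels {L : M → Prop} (hL : Rec R L) (hinf : ∀ b, ∃ m, b < m ∧ L m) :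
    ∃ lam : M → M, Rec R lam ∧ (∀ i, L (lam i)) ∧ ∀ i, lam i < lam (i + 1) := by
  obtain ⟨g, hg, hgs⟩ := Rec.choice (R := R) (P := fun (b : M) (m : M) => b < m ∧ L m)
    (by fun_prop) hinf
  refine ⟨fun i => prec (g 0) (fun _ b => g b) i, by fun_prop, ?_, ?_⟩
  · intro i
    have h : ∀ i : M, i = 0 ∨ ∃ j < i, i = j + 1 := by
      intro i
      rcases Classical.em (i = 0) with h | h
      · exact Or.inl h
      · right
        have hp : ∀ n : M, n = 0 ∨ ∃ j < n, n = j + 1 := by
          apply ind_rec (R := R) (p := fun n => n = 0 ∨ ∃ j < n, n = j + 1)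
          · fun_prop
          · exact Or.inl rfl
          · intro n _
            exact Or.inr ⟨n, lt_succ.2 le_rfl, rfl⟩
        rcases hp i with h1 | h1
        · exact absurd h1 h
        · exact h1
    rcases h i with h0 | ⟨j, _, rfl⟩
    · rw [h0]
      simp only [prec_zero]
      exact (hgs 0).2
    · simp only
      rw [prec_succ (R := R) (g 0) (g := fun _ b => g b) (by fun_prop)]
      exact (hgs _).2
  · intro i
    simp only
    rw [prec_succ (R := R) (g 0) (g := fun _ b => g b) (by fun_prop)]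
    exact (hgs _).1

theorem mono_of_succ {lam : M → M} (hlam : Rec R lam) (h : ∀ i, lam i < lam (i + 1)) :
    ∀ j, ∀ i < j, lam i < lam j := by
  apply ind_rec (R := R) (p := fun j => ∀ i < j, lam i < lam j)
  · fun_prop
  · intro i hi
    exact absurd hi (not_lt.2 (zero_le' i))
  · intro n ih i hi
    rcases Classical.em (i = n) with e | e
    · rw [e]
      exact h n
    · exact lt_trans (ih i (lt_of_le_of_ne (lt_succ.1 hi) e)) (h n)

end LIN

/-- `Lin` follows from the density Carlson-Simpson theorem. -/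
theorem t_LIN (h1 : Stmt_DCS) (h2 : Stmt_B1) {M : Type} [Arith M] [HasWorld M]
    (R0 R1 : Set (M → M)) [IsWorld R0] [IsWorld R1] (hR : R0 ⊆ R1) (hj : JumpIn R0 R1)
    (a : M) (ha : 0 < a) : Lin R0 a := by
  intro θ X L hθ hX hL hinf hd
  obtain ⟨n, hn, hdcs⟩ := h1 M R0 R1 hR hj a ha θ hθ
  obtain ⟨lam, hlam, hl, hs⟩ := LIN.exists_levels hL hinf
  have hm := LIN.mono_of_succ hlam hs
  obtain ⟨i, j, hij, hjn, x, hx, w, hw, hlen, hline⟩ := h2 M R0 a n θ lam X ha hn hdcs hlam hX
    (fun j _ i hi => hm j i hi) (by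
      apply le_havg (R := R0)
      · fun_prop
      · exact ⟨0, by simpa using hn⟩
      · intro i _
        exact hd _ (hl i))
  have hxl : x.len = lam i := (mem_W.1 hx).1
  have hwW : w ∈ W (a + 1) w.len := by
    have := mem_Wlt.1 hw
    exact mem_W.2 ⟨rfl, this.2⟩
  refine ⟨x, by rw [hxl]; exact hx, w, hwW, hline.1, by rw [hxl]; exact hl i, ?_, hline.2⟩
  rw [hxl, hlen]
  exact hl j

end Pool.Agent.OVW.FC
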