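import Pool.Agent.OVW.StmtsC

/-! # Block C, LOC: locality of the operations -/

namespace Pool.Agent.OVW.FC

open Classical

set_option linter.unusedSectionVars false

namespace LOC

variable {M : Type} [Arith M] [HasWorld M]

/-- Agreement of `s`, `d` and of `D` on the words of length `≤ n`. -/
structure Ag (a n : M) (C C' : Cnd M) : Prop where
  s : C.s = C'.s
  d : C.d = C'.d
  D : ∀ z ∈ Wlt a (n + 1), C.D z ↔ C'.D z

theorem Ag.symm {a n : M} {C C' : Cnd M} (h : Ag a n C C') : Ag a n C' C :=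
  ⟨h.s.symm, h.d.symm, fun z hz => (h.D z hz).symm⟩

theorem W_sub_Wlt {a n i : M} (hi : i ≤ n) {y : Wd M} (hy : y ∈ W a i) : y ∈ Wlt a (n + 1) :=
  mem_Wlt_iff.2 ⟨i, lt_succ.2 hi, hy⟩

theorem phi_of {a n q : M} {U : M → Wd M → Prop} {C C' : Cnd M} (h : Ag a n C C') {t : Wd M}
    (ht : t.len ≤ n) (hp : Phi a U C q t) : Phi a U C' q t := by
  obtain ⟨h1, h2, h3, h4⟩ := hp
  refine ⟨h1, h2, ?_, ?_⟩
  · intro i hi hg y hy hm
    exact (h.D y (W_sub_Wlt (hi.le.trans ht) hy)).1 (h3 i hi hg y hy hm)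
  · rw [← h.s]
    exact h4

theorem qb_of {a n q : M} {U : M → Wd M → Prop} {C C' : Cnd M} (h : Ag a n C C')
    {B : FSet M (Wd M)} (hB : B ∈ (W a n).powerset) (hp : QB a U C q n B) : QB a U C' q n B := by
  rw [mem_powerset] at hB
  obtain ⟨h1, h2, h3⟩ := hp
  refine ⟨fun x hx => (h.D x (W_sub_Wlt le_rfl (hB x hx))).1 (h1 x hx), ?_, ?_⟩
  · rw [← h.d]
    exact h2
  · intro t ht hp z hz
    have ht' : t.len ≤ n := lt_succ.1 (mem_Wlt.1 ht).1
    exact h3 t ht (phi_of h.symm ht' hp) z hz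

theorem qq_iff {a n q : M} {U : M → Wd M → Prop} {C C' : Cnd M} (h : Ag a n C C') :
    QQ a U C q n ↔ QQ a U C' q n := by
  constructor
  · rintro ⟨B, hB, hq⟩
    exact ⟨B, hB, qb_of h hB hq⟩
  · rintro ⟨B, hB, hq⟩
    exact ⟨B, hB, qb_of h.symm hB hq⟩

theorem bn_eq {a n q : M} {U : M → Wd M → Prop} {C C' : Cnd M} (h : Ag a n C C') :
    Bn a U C q n = Bn a U C' q n := by
  unfold Bn
  exact hchoose_congr fun B hB => ⟨qb_of h hB, qb_of h.symm hB⟩

theorem cnt_congr {a n : M} {p q : Wd M → Prop} (h : ∀ x ∈ W a n, p x ↔ q x) :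
    cnt a n p = cnt a n q := by
  unfold cnt
  rw [filter_congr h]

theorem dt_iff {a : M} {D D' : Wd M → Prop} {t z : Wd M} {n : M} (hn : t.len + z.len ≤ n)
    (h : ∀ x ∈ Wlt a (n + 1), D x ↔ D' x) : Dt a D t z ↔ Dt a D' t z := by
  unfold Dt
  constructor
  · rintro ⟨h1, h2⟩
    exact ⟨h1, fun y hy hm => (h _ (W_sub_Wlt hn (append_mem_W hy h1))).1 (h2 y hy hm)⟩
  · rintro ⟨h1, h2⟩
    exact ⟨h1, fun y hy hm => (h _ (W_sub_Wlt hn (append_mem_W hy h1))).2 (h2 y hy hm)⟩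

theorem lt_add_one_sub {n N l : M} (h : n < N + 1 - l) : n + 1 ≤ N + 1 - l := succ_le.2 h

theorem ag_of {a N n : M} {C C' : Cnd M} (h : Agree a N C C') (hn : n < N + 1 - C.s.len) :
    Ag a n C C' := by
  obtain ⟨h1, h2, h3, h4⟩ := h
  refine ⟨h1, h2, fun z hz => h3 z ?_⟩
  rw [mem_Wlt] at hz ⊢
  exact ⟨hz.1.trans_le (succ_le.2 hn), hz.2⟩

theorem stepY_ag (a : M) (U : M → Wd M → Prop) (N : M) (C C' : Cnd M) (q : M)
    (h : Agree a N C C') : Agree a N (stepY a U q C) (stepY a U q C') := by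
  obtain ⟨h1, h2, h3, h4⟩ := h
  refine ⟨h1, ?_, ?_, ?_⟩
  · show 16 * (C.d * C.d) = 16 * (C'.d * C'.d)
    rw [h2]
  · intro z hz
    have hz' : z.len < N + 1 - C.s.len := (mem_Wlt.1 hz).1
    have hag := ag_of ⟨h1, h2, h3, h4⟩ hz'
    show (C.E z.len ∧ QQ a U C q z.len ∧ z ∈ Bn a U C q z.len) ↔
      (C'.E z.len ∧ QQ a U C' q z.len ∧ z ∈ Bn a U C' q z.len)
    rw [h4 _ hz', qq_iff hag, bn_eq hag]
  · intro n hn
    have hag := ag_of ⟨h1, h2, h3, h4⟩ hn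
    show (C.E n ∧ QQ a U C q n) ↔ (C'.E n ∧ QQ a U C' q n)
    rw [h4 _ hn, qq_iff hag]

theorem stepT_ag (a : M) (N : M) (C C' : Cnd M) (n : M)
    (h : Agree a N C C') : Agree a N (stepT a n C) (stepT a n C') := by
  obtain ⟨h1, h2, h3, h4⟩ := h
  refine ⟨h1, h2, h3, ?_⟩
  intro m hm
  have hag := ag_of ⟨h1, h2, h3, h4⟩ hm
  show (C.E m ∧ n < m ∧ cnt a m (fun x => C.D x ∧ C.D (x.take n)) * (8 * (C.d * C.d)) < hpow a m) ↔
    (C'.E m ∧ n < m ∧ cnt a m (fun x => C'.D x ∧ C'.D (x.take n)) * (8 * (C'.d * C'.d)) < hpow a m)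
  have e : cnt a m (fun x => C.D x ∧ C.D (x.take n)) =
      cnt a m (fun x => C'.D x ∧ C'.D (x.take n)) := by
    apply cnt_congr
    intro x hx
    have hx1 : x ∈ Wlt a (m + 1) := W_sub_Wlt le_rfl hx
    have hx2 : x.take n ∈ Wlt a (m + 1) := by
      rw [mem_Wlt]
      have hx' := mem_W.1 hx
      rw [len_take]
      refine ⟨lt_succ.2 ((min_le_right _ _).trans hx'.1.le), fun i hi => ?_⟩
      rw [get_take (hi.trans_le (min_le_left _ _))]
      exact hx'.2 i ((hi.trans_le (min_le_right _ _)).trans_le hx'.1.le)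
    exact and_congr (hag.D x hx1) (hag.D _ hx2)
  rw [h4 _ hm, e, h2]

theorem stepX_ag (a : M) (N : M) (C C' : Cnd M) (n : M) (t : Wd M)
    (h : Agree a N C C') : Agree a N (stepX a n t C) (stepX a n t C') := by
  obtain ⟨h1, h2, h3, h4⟩ := h
  have key : ∀ m, m < N + 1 - (C.s ++ t).len → m + t.len < N + 1 - C.s.len := by
    intro m hm
    rw [len_append, ← tsub_tsub] at hm
    exact lt_tsub_iff_right.1 hm
  have keyD : ∀ m, m < N + 1 - (C.s ++ t).len → ∀ z : Wd M, z.len = m →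
      (Dt a C.D t z ↔ Dt a C'.D t z) := by
    intro m hm z hz
    have hag := ag_of ⟨h1, h2, h3, h4⟩ (key m hm)
    refine dt_iff (n := m + t.len) ?_ hag.D
    rw [hz, add_comm]
  refine ⟨?_, ?_, ?_, ?_⟩
  · show C.s ++ t = C'.s ++ t
    rw [h1]
  · show dn a C.d n = dn a C'.d n
    rw [h2]
  · intro z hz
    exact keyD _ (mem_Wlt.1 hz).1 z rfl
  · intro m hm
    show (C.E (m + t.len) ∧ hpow a m ≤ cnt a m (Dt a C.D t) * dn a C.d n) ↔
      (C'.E (m + t.len) ∧ hpow a m ≤ cnt a m (Dt a C'.D t) * dn a C'.d n)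
    have e : cnt a m (Dt a C.D t) = cnt a m (Dt a C'.D t) :=
      cnt_congr fun x hx => keyD m hm x (mem_W.1 hx).1
    rw [h4 _ (key m hm), e, h2]

end LOC

theorem t_LOC : StmtLOC := by
  intro M _ _ a U N C C' o h
  unfold stepC
  split_ifs
  · exact LOC.stepY_ag a U N C C' _ h
  · exact LOC.stepT_ag a N C C' _ h
  · exact LOC.stepX_ag a N C C' _ _ h

end Pool.Agent.OVW.FC
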