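import Pool.Agent.OVW.StmtsC

set_option autoImplicit false

/-!
# Block C, MA1: the recursion
-/

namespace Pool.Agent.OVW.FC

open Classical

set_option linter.unusedSectionVars false

namespace MA1

section

variable {M : Type} [Arith M] [HasWorld M] (a : M) (U : M → Wd M → Prop) (C0 : Cnd M)

/-- every level gives a negative answer -/
def ans (x : Wd M × M) : Prop :=
  ∀ n, (cnd a U C0 x.1).E n → QQ a U (cnd a U C0 x.1) x.2 n

/-- the first level without a negative answer -/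
noncomputable def nu (x : Wd M × M) : M :=
  least (fun n => ans a U C0 x ∨ ((cnd a U C0 x.1).E n ∧ ¬ QQ a U (cnd a U C0 x.1) x.2 n))

noncomputable def cnds (x : Wd M × M) : FSet M (Op M) :=
  cand a U (cnd a U C0 x.1) x.2 (nu a U C0 x)

def GG (x : Wd M × M) (o : Op M) (b : M) : Prop :=
  ∃ m, b < m ∧ (cnd a U C0 (x.1 ++ wsing (enc o))).E m

noncomputable def step (S : Wd M × M → Op M) (x : Wd M × M) : Wd M × M :=
  if ans a U C0 x then (x.1 ++ wsing (enc (((0 : M), (0 : M), x.2, wnil) : Op M)), x.2 + 1)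
  else (x.1 ++ wsing (enc (S x)), if (S x).1 = 1 then x.2 else x.2 + 1)

end

variable {M : Type} [Arith M] [HasWorld M] {R₀ R₁ : Set (M → M)} [IsWorld R₀] [IsWorld R₁]
  {a : M} {U : M → Wd M → Prop} {C0 : Cnd M}

theorem rec_QQ (hU : Rec R₀ (fun p : M × Wd M => U p.1 p.2)) (hC : C0.IsRec R₀) :
    Rec R₀ (fun p : (Wd M × M) × M => QQ a U (cnd a U C0 p.1.1) p.1.2 p.2) :=
  RecC.QQ (C := fun p : (Wd M × M) × M => cnd a U C0 p.1.1) hU
    (RecC.cnd hU hC (by fun_prop)) (by fun_prop) (by fun_prop)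

theorem rec_E (hU : Rec R₀ (fun p : M × Wd M => U p.1 p.2)) (hC : C0.IsRec R₀) :
    Rec R₀ (fun p : (Wd M × M) × M => (cnd a U C0 p.1.1).E p.2) := by
  have h := (RecC.cnd (a := a) (h := fun x : Wd M × M => x.1) hU hC (by fun_prop)).E
  exact h

theorem rec_ans (hj : JumpIn R₀ R₁) (hU : Rec R₀ (fun p : M × Wd M => U p.1 p.2))
    (hC : C0.IsRec R₀) : Rec R₁ (ans a U C0) := by
  have h1 := rec_QQ (a := a) hU hC
  have h2 := rec_E (a := a) hU hC
  have h := Rec.jump_all (R₀ := R₀) (R₁ := R₁) hj (γ := Wd M × M) (α := M)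
    (p := fun x n => (cnd a U C0 x.1).E n → QQ a U (cnd a U C0 x.1) x.2 n) (by fun_prop)
  exact h

theorem nu_ex (x : Wd M × M) : ∃ n, ans a U C0 x ∨
    ((cnd a U C0 x.1).E n ∧ ¬ QQ a U (cnd a U C0 x.1) x.2 n) := by
  by_cases h : ans a U C0 x
  · exact ⟨0, Or.inl h⟩
  · unfold ans at h
    push Not at h
    obtain ⟨n, h1, h2⟩ := h
    exact ⟨n, Or.inr ⟨h1, h2⟩⟩

theorem rec_nuP (h01 : R₀ ⊆ R₁) (hj : JumpIn R₀ R₁)
    (hU : Rec R₀ (fun p : M × Wd M => U p.1 p.2)) (hC : C0.IsRec R₀) :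
    Rec R₁ (fun p : (Wd M × M) × M => ans a U C0 p.1 ∨
      ((cnd a U C0 p.1.1).E p.2 ∧ ¬ QQ a U (cnd a U C0 p.1.1) p.1.2 p.2)) := by
  have h1 := Rec.mono h01 (rec_QQ (a := a) hU hC)
  have h2 := Rec.mono h01 (rec_E (a := a) hU hC)
  have h3 : Rec R₁ (fun p : (Wd M × M) × M => ans a U C0 p.1) :=
    Rec.comp (rec_ans (a := a) hj hU hC) Rec.fst_
  exact Rec.or h3 (Rec.and h2 (Rec.not h1))

theorem rec_nu (h01 : R₀ ⊆ R₁) (hj : JumpIn R₀ R₁)
    (hU : Rec R₀ (fun p : M × Wd M => U p.1 p.2)) (hC : C0.IsRec R₀) :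
    Rec R₁ (nu a U C0) := by
  have h := Rec.least (R := R₁) (P := fun (x : Wd M × M) n => ans a U C0 x ∨
    ((cnd a U C0 x.1).E n ∧ ¬ QQ a U (cnd a U C0 x.1) x.2 n)) (rec_nuP h01 hj hU hC)
    (fun x => nu_ex x)
  exact h

theorem rec_cnds (h01 : R₀ ⊆ R₁) (hj : JumpIn R₀ R₁)
    (hU : Rec R₀ (fun p : M × Wd M => U p.1 p.2)) (hC : C0.IsRec R₀) :
    Rec R₁ (cnds a U C0) := by
  have h := rec_nu (a := a) h01 hj hU hC
  have h1 : RecC R₁ (fun x : Wd M × M => cnd a U C0 x.1) :=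
    (RecC.cnd (a := a) (h := fun x : Wd M × M => x.1) hU hC (by fun_prop)).mono h01
  exact RecC.cand (C := fun x : Wd M × M => cnd a U C0 x.1) (Rec.mono h01 hU) h1
    (q := fun x => x.2) (by fun_prop) h

theorem rec_GG (hj : JumpIn R₀ R₁)
    (hU : Rec R₀ (fun p : M × Wd M => U p.1 p.2)) (hC : C0.IsRec R₀) :
    Rec R₁ (fun p : (Wd M × M) × Op M × M => GG a U C0 p.1 p.2.1 p.2.2) := by
  have h1 := (RecC.cnd (a := a) (h := fun x : (Wd M × M) × Op M × M => x.1.1 ++ wsing (enc x.2.1))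
    hU hC (by fun_prop)).E
  have h := Rec.jump_ex (R₀ := R₀) (R₁ := R₁) hj (γ := (Wd M × M) × Op M × M) (α := M)
    (p := fun x m => x.2.2 < m ∧ (cnd a U C0 (x.1.1 ++ wsing (enc x.2.1))).E m)
    (Rec.and (by fun_prop) h1)
  exact h

end MA1

open MA1 in
theorem t_MA1 (h1 : StmtHIS) (h2 : StmtPI2) (h3 : StmtSEL) : StmtMA1 := by
  intro M _ _ R₀ R₁ _ _ a U C0 hM hR₁ h01 hj ha hU hC hok
  obtain ⟨R₂, hw2, h12, S, hS, hsel⟩ := h3 M R₁ hM hR₁ (Wd M × M) (Op M) (cnds a U C0)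
    (GG a U C0) (rec_cnds h01 hj hU hC) (rec_GG hj hU hC)
  have := hw2
  have hans : Rec R₂ (ans a U C0) := Rec.mono h12 (rec_ans hj hU hC)
  have hstep : Rec R₂ (MA1.step a U C0 S) := by
    unfold MA1.step
    fun_prop
  refine ⟨R₂, hw2, h12, fun k => prec ((wnil, 0) : Wd M × M) (fun _ y => MA1.step a U C0 S y) k,
    by fun_prop, prec_zero _ _, ?_⟩
  intro k hinf
  set x := prec ((wnil, 0) : Wd M × M) (fun _ y => MA1.step a U C0 S y) k with hx
  have hsucc : prec ((wnil, 0) : Wd M × M) (fun _ y => MA1.step a U C0 S y) (k + 1) =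
      MA1.step a U C0 S x := prec_succ (R := R₂) _ (by fun_prop) k
  have hgoal : Nxt a U C0 x (MA1.step a U C0 S x) := by
    by_cases hA : ans a U C0 x
    · left
      refine ⟨hA, ?_⟩
      unfold MA1.step
      rw [if_pos hA]
    · right
      obtain ⟨hok', hcons⟩ := (h1 M R₀ a U C0 ha hU hC hok).2
      have hCok := hok' x.1
      have hCrec : (cnd a U C0 x.1).IsRec R₀ :=
        RecC.isRec (RecC.cnd (a := a) (h := fun x : Wd M => x) hU hC (by fun_prop)) x.1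
      have hnu := (Rec.least_spec (R := R₁) (P := fun n => ans a U C0 x ∨
        ((cnd a U C0 x.1).E n ∧ ¬ QQ a U (cnd a U C0 x.1) x.2 n))
        (Rec.comp (g := fun p : (Wd M × M) × M => ans a U C0 p.1 ∨
          ((cnd a U C0 p.1.1).E p.2 ∧ ¬ QQ a U (cnd a U C0 p.1.1) p.1.2 p.2))
          (f := fun n : M => (x, n)) (rec_nuP h01 hj hU hC) (by fun_prop)) (nu_ex x)).1
      have hnu' : (cnd a U C0 x.1).E (nu a U C0 x) ∧
          ¬ QQ a U (cnd a U C0 x.1) x.2 (nu a U C0 x) := hnu.resolve_left hA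
      obtain ⟨o, ho, hoinf⟩ := h2 M R₀ R₁ a U (cnd a U C0 x.1) x.2 (nu a U C0 x) h01 hj ha hU
        hCrec hCok hinf hnu'.2
      have hG : ∀ b, GG a U C0 x o b := by
        intro b
        obtain ⟨m, hm1, hm2⟩ := hoinf b
        refine ⟨m, hm1, ?_⟩
        rw [hcons]
        exact hm2
      obtain ⟨hS1, hS2⟩ := hsel x ⟨o, ho, hG⟩
      refine ⟨nu a U C0 x, hnu'.1, hnu'.2, S x, hS1, ?_, ?_⟩
      · intro b
        obtain ⟨m, hm1, hm2⟩ := hS2 b
        rw [hcons] at hm2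
        exact ⟨m, hm1, hm2⟩
      · unfold MA1.step
        rw [if_neg hA]
  show Nxt a U C0 x (prec ((wnil, 0) : Wd M × M) (fun _ y => MA1.step a U C0 S y) (k + 1))
  rw [hsucc]
  exact hgoal

end Pool.Agent.OVW.FC
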