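import Pool.Agent.OVW.StmtsC

/-!
# Block C, module MA3: every question is decided
-/

namespace Pool.Agent.OVW.FC

open Classical

set_option linter.unusedSectionVars false

namespace MA3

variable {M : Type} [Arith M] [HasWorld M]

/-- One step of the construction decides the question, or it is a thinning of the levels. -/
theorem nxt_cases {a : M} {U : M → Wd M → Prop} {C0 : Cnd M} {x x' : Wd M × M}
    (h : Nxt a U C0 x x') : x'.2 = x.2 + 1 ∨ ∃ n, (cnd a U C0 x.1).E n ∧
      x' = (x.1 ++ wsing (enc (((1 : M), n, x.2, wnil) : Op M)), x.2) := by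
  rcases h with ⟨_, h⟩ | ⟨n, hn, _, o, ho, _, h⟩
  · left
    rw [h]
  · by_cases h1 : o.1 = 1
    · right
      refine ⟨n, hn, ?_⟩
      rw [if_pos h1] at h
      obtain ⟨R, hR⟩ := HasWorld.ex (M := M)
      unfold cand at ho
      rcases mem_union.1 ho with ho | ho
      · rw [mem_singleton] at ho
        rw [h, ho]
      · obtain ⟨t, _, ht⟩ := (mem_image (R := R) (by fun_prop)).1 ho
        rw [← ht] at h1
        exact absurd h1 (by norm_num)
    · left
      rw [if_neg h1] at h
      rw [h]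

theorem decide_step (h1 : StmtHIS) (h2 : StmtBON) {R₀ R₁ R₂ : Set (M → M)} {a : M}
    {U : M → Wd M → Prop} {C0 : Cnd M} {x : M → Wd M × M} (T : Tr R₀ R₁ R₂ a U C0 x)
    (hn : ∀ k, Nxt a U C0 (x k) (x (k + 1))) (k : M) :
    ∃ k', (x k').2 = (x k).2 ∧ (x (k' + 1)).2 = (x k).2 + 1 := by
  by_contra hcon
  push Not at hcon
  haveI := T.w0
  haveI := T.w1
  haveI := T.w2
  have hs : R₀ ⊆ R₂ := T.s1.trans T.s2
  have hU2 : Rec R₂ (fun p : M × Wd M => U p.1 p.2) := T.hU.mono hs
  have hC2 : C0.IsRec R₂ := ⟨T.hC.D.mono hs, T.hC.E.mono hs⟩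
  obtain ⟨_, hok, hst⟩ := h1 M R₂ a U C0 T.ha hU2 hC2 T.ok
  have hx : Rec R₂ x := T.hx
  have hxi : Rec R₂ (fun i : M => x (k + i)) :=
    Rec.comp (g := x) (f := fun i : M => k + i) hx (by fun_prop)
  have hxi' : Rec R₂ (fun i : M => x (k + i + 1)) :=
    Rec.comp (g := x) (f := fun i : M => k + i + 1) hx (by fun_prop)
  -- the number of the question is constant
  have hq : ∀ i, (x (k + i)).2 = (x k).2 := by
    apply ind_rec (R := R₂) (p := fun i => (x (k + i)).2 = (x k).2)
    · fun_prop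
    · rw [add_zero]
    · intro i ih
      rw [← add_assoc]
      rcases nxt_cases (hn (k + i)) with h | ⟨n, _, h⟩
      · exact absurd (h.trans (by rw [ih])) (hcon (k + i) ih)
      · rw [h]
        exact ih
  let C : M → Cnd M := fun i => cnd a U C0 (x (k + i)).1
  let ν : M → M := fun i => (dec ((x (k + i + 1)).1.get (x (k + i)).1.len) : Op M).2.1
  have hν : Rec R₂ ν := by
    show Rec R₂ (fun i => (dec ((x (k + i + 1)).1.get (x (k + i)).1.len) : Op M).2.1)
    fun_prop
  have hC : RecC R₂ C := RecC.cnd hU2 hC2 (by fun_prop)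
  have hstep : ∀ i, (C i).E (ν i) ∧ C (i + 1) = stepT a (ν i) (C i) := by
    intro i
    rcases nxt_cases (hn (k + i)) with h | ⟨n, hE, h⟩
    · exact absurd (h.trans (by rw [hq i])) (hcon (k + i) (hq i))
    · have e : ν i = n := by
        show (dec ((x (k + i + 1)).1.get (x (k + i)).1.len) : Op M).2.1 = n
        rw [h]
        show (dec (((x (k + i)).1 ++ wsing (enc (((1 : M), n, (x (k + i)).2, wnil) : Op M))).get
          (x (k + i)).1.len) : Op M).2.1 = n
        rw [get_append_right' le_rfl, tsub_self, get_wsing, dec_enc]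
      refine ⟨by rw [e]; exact hE, ?_⟩
      show cnd a U C0 (x (k + (i + 1))).1 = stepT a (ν i) (cnd a U C0 (x (k + i)).1)
      rw [← add_assoc, h, e]
      show cnd a U C0 ((x (k + i)).1 ++ wsing (enc (((1 : M), n, (x (k + i)).2, wnil) : Op M))) = _
      rw [hst]
      unfold stepC
      rw [if_neg one_ne_zero, if_pos rfl]
  have hD : ∀ i, (C i).D = (C 0).D := by
    have h : ∀ i, ∀ z, ((C i).D z ↔ (C 0).D z) := by
      apply ind_pi1 (R := R₂) (q := fun i z => ((C i).D z ↔ (C 0).D z))
      · have hD1 := hC.D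
        have hD2 : Rec R₂ (fun y : M × Wd M => (C 0).D y.2) :=
          Rec.comp (g := (C 0).D) (f := fun y : M × Wd M => y.2) (hC.isRec 0).D (by fun_prop)
        exact Rec.iff hD1 hD2
      · exact fun z => Iff.rfl
      · intro i ih z
        rw [(hstep i).2]
        exact ih z
    exact fun i => funext fun z => propext (h i z)
  have hd : ∀ i, (C i).d = (C 0).d := by
    apply ind_rec (R := R₂) (p := fun i => (C i).d = (C 0).d)
    · have hd1 := hC.d
      fun_prop
    · rfl
    · intro i ih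
      rw [(hstep i).2]
      exact ih
  have hE : ∀ j, ∀ p : M × M, p.1 < j → (C j).E p.2 → (C (p.1 + 1)).E p.2 := by
    apply ind_pi1 (R := R₂)
      (q := fun j (p : M × M) => p.1 < j → (C j).E p.2 → (C (p.1 + 1)).E p.2)
    · have h3 : Rec R₂ (fun y : M × M × M => (C y.1).E y.2.2) :=
        Rec.comp (g := fun y : M × M => (C y.1).E y.2) (f := fun y : M × M × M => (y.1, y.2.2))
          hC.E (by fun_prop)
      have h4 : Rec R₂ (fun y : M × M × M => (C (y.2.1 + 1)).E y.2.2) :=
        Rec.comp (g := fun y : M × M => (C y.1).E y.2)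
          (f := fun y : M × M × M => (y.2.1 + 1, y.2.2)) hC.E (by fun_prop)
      exact Rec.imp (by fun_prop) (Rec.imp h3 h4)
    · exact fun p hp => absurd hp (by simp)
    · intro j ih p hp hpE
      rcases (lt_succ.1 hp).lt_or_eq with h | h
      · apply ih p h
        rw [(hstep j).2] at hpE
        exact hpE.1
      · rw [h]
        exact hpE
  have hpos : 0 < (C 0).d := (hok _).pos
  have := h2 M R₂ a (C 0).d (2 * ((C 0).d * (C 0).d)) (C 0).D ν T.ha hpos (hC.isRec 0).D hν
    (fun i _ => by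
      have h := (hok (x (k + i)).1).dense (ν i) (hstep i).1
      have e1 : (cnd a U C0 (x (k + i)).1).D = (C 0).D := hD i
      have e2 : (cnd a U C0 (x (k + i)).1).d = (C 0).d := hd i
      rwa [e1, e2] at h)
    (fun j _ i hi => by
      have h := hE j (i, ν j) hi (hstep j).1
      have h' : (C (i + 1)).E (ν j) := h
      rw [(hstep i).2] at h'
      obtain ⟨_, h3, h4⟩ := h'
      rw [hD i, hd i] at h4
      exact ⟨h3, h4⟩)
  exact lt_irrefl _ this

end MA3

open MA3 in
theorem t_MA3 (h1 : StmtHIS) (h2 : StmtBON) : StmtMA3 := by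
  intro M _ _ R₀ R₁ R₂ a U C0 x T hn
  haveI := T.w2
  have hx : Rec R₂ x := T.hx
  have key : ∀ q, ∃ k, (x k).2 = q := by
    apply ind_sig1 (R := R₂) (q := fun q k => (x k).2 = q)
    · fun_prop
    · exact ⟨0, by rw [T.x0]⟩
    · rintro q ⟨k, hk⟩
      obtain ⟨k', _, h4⟩ := decide_step h1 h2 T hn k
      exact ⟨k' + 1, by rw [h4, hk]⟩
  intro q
  obtain ⟨k, hk⟩ := key q
  obtain ⟨k', h3, h4⟩ := decide_step h1 h2 T hn k
  exact ⟨k', by rw [h3, hk], by rw [h4, hk]⟩

end Pool.Agent.OVW.FC
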