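import Pool.Agent.OVW.StmtsC

/-!
# Block C, MA4: the trajectory gives the words and the decisions
-/

namespace Pool.Agent.OVW.FC

open Classical

set_option linter.unusedSectionVars false

namespace MA4

variable {M : Type} [Arith M] [HasWorld M]

theorem snd_step {a : M} {U : M → Wd M → Prop} {C0 : Cnd M} {x x' : Wd M × M}
    (h : Nxt a U C0 x x') : x.2 ≤ x'.2 := by
  rcases h with ⟨-, rfl⟩ | ⟨n, -, -, o, -, -, rfl⟩
  · exact le_self_add
  · show x.2 ≤ if o.1 = 1 then x.2 else x.2 + 1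
    split_ifs
    · exact le_rfl
    · exact le_self_add

theorem snd_mono {R : Set (M → M)} [IsWorld R] {a : M} {U : M → Wd M → Prop} {C0 : Cnd M}
    {x : M → Wd M × M} (hx : Rec R x) (hN : ∀ k, Nxt a U C0 (x k) (x (k + 1))) (k k' : M)
    (hk : k ≤ k') : (x k).2 ≤ (x k').2 := by
  obtain ⟨d, rfl⟩ := le_iff_exists_add.1 hk
  refine ind_rec (R := R) (p := fun d => (x k).2 ≤ (x (k + d)).2) (by fun_prop) ?_ ?_ d
  · rw [add_zero]
  · intro n hn
    rw [← add_assoc]
    exact hn.trans (snd_step (hN (k + n)))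

theorem get_snoc (h : Wd M) (c : M) : (h ++ wsing c).get h.len = c := by
  have h1 := get_append_right (u := h) (v := wsing c) 0
  rw [add_zero, get_wsing] at h1
  exact h1

theorem mem_cand {R : Set (M → M)} [IsWorld R] {a : M} {U : M → Wd M → Prop} {C : Cnd M}
    (hU : Rec R (fun p : M × Wd M => U p.1 p.2)) (hC : C.IsRec R) {q n : M} {o : Op M}
    (ho : o ∈ cand a U C q n) :
    o = (1, n, q, wnil) ∨ ∃ t, Phi a U C q t ∧ o = (2, n, q, t) := by
  unfold cand at ho
  rcases mem_union.1 ho with h | h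
  · exact Or.inl (mem_singleton.1 h)
  · right
    obtain ⟨t, ht, rfl⟩ := (mem_image (R := R) (f := fun t : Wd M => ((2 : M), n, q, t))
      (by fun_prop)).1 h
    have hP : Rec R (Phi a U C q) :=
      RecC.Phi (γ := Wd M) (C := fun _ => C) (q := fun _ => q) (t := fun t => t) hU hC.recC
        (by fun_prop) (by fun_prop)
    exact ⟨t, ((mem_filter hP).1 ht).2, rfl⟩

theorem stepC_two {a : M} {U : M → Wd M → Prop} {C : Cnd M} (n q : M) (t : Wd M) :
    stepC a U (2, n, q, t) C = stepX a n t C := by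
  unfold stepC
  rw [if_neg, if_neg]
  · show ¬ (2 : M) = 1
    intro h
    have h1 : (1 : M) + 1 = 1 := by
      rw [one_add_one_eq_two]
      exact h
    exact absurd h1 (lt_add_of_pos_right (1 : M) one_pos).ne'
  · show ¬ (2 : M) = 0
    exact two_ne_zero

theorem stepC_zero {a : M} {U : M → Wd M → Prop} {C : Cnd M} (n q : M) (t : Wd M) :
    stepC a U (0, n, q, t) C = stepY a U q C := by
  unfold stepC
  rw [if_pos rfl]

end MA4

open MA4 in
theorem t_MA4 (h1 : StmtHIS) (h2 : StmtCLO) (h3 : StmtFRC) (h4 : StmtEXI) : StmtMA4 := by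
  intro M _ _ R₀ R₁ R₂ hw0 a U C0 x hTr hs0 hLin hInf hN hE hq
  have w2 := hTr.w2
  have hx := hTr.hx
  have hsub : R₀ ⊆ R₂ := hTr.s1.trans hTr.s2
  have hU2 : Rec R₂ (fun p : M × Wd M => U p.1 p.2) := Rec.mono hsub hTr.hU
  have hC2 : C0.IsRec R₂ := ⟨Rec.mono hsub hTr.hC.D, Rec.mono hsub hTr.hC.E⟩
  have hrc : RecC R₂ (fun k => cnd a U C0 (x k).1) := RecC.cnd hU2 hC2 (by fun_prop)
  have hrec0 : ∀ h : Wd M, (cnd a U C0 h).IsRec R₀ := fun h =>
    RecC.isRec (C := fun h : Wd M => cnd a U C0 h) (RecC.cnd hTr.hU hTr.hC (by fun_prop)) h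
  obtain ⟨hc0, hOk, hst⟩ := h1 M R₀ a U C0 hTr.ha hTr.hU hTr.hC hTr.ok
  let kk : M → M := fun q => least (fun k => (x k).2 = q ∧ (x (k + 1)).2 = q + 1)
  have hkk : ∀ q, (x (kk q)).2 = q ∧ (x (kk q + 1)).2 = q + 1 := fun q =>
    (Rec.least_spec (R := R₂) (P := fun k => (x k).2 = q ∧ (x (k + 1)).2 = q + 1) (by fun_prop)
      (hq q)).1
  have hkkR : Rec R₂ kk :=
    Rec.least (P := fun q k => (x k).2 = q ∧ (x (k + 1)).2 = q + 1) (by fun_prop) hq
  let dd : M → Prop := fun q =>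
    (dec ((x (kk q + 1)).1.get (x (kk q)).1.len) : Op M).1 ≠ 0
  have hddR : Rec R₂ dd := by
    show Rec R₂ (fun q => (dec ((x (kk q + 1)).1.get (x (kk q)).1.len) : Op M).1 ≠ 0)
    fun_prop
  have step : ∀ q, ((∀ n, (cnd a U C0 (x (kk q)).1).E n → QQ a U (cnd a U C0 (x (kk q)).1) q n) ∧
      cnd a U C0 (x (kk q + 1)).1 = stepY a U q (cnd a U C0 (x (kk q)).1) ∧ ¬ dd q) ∨
      (∃ n, (cnd a U C0 (x (kk q)).1).E n ∧ ¬ QQ a U (cnd a U C0 (x (kk q)).1) q n ∧
        ∃ t, Phi a U (cnd a U C0 (x (kk q)).1) q t ∧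
        (cnd a U C0 (x (kk q + 1)).1).s = (cnd a U C0 (x (kk q)).1).s ++ t ∧ dd q) := by
    intro q
    obtain ⟨hq1, hq2⟩ := hkk q
    rcases hN (kk q) with ⟨hall, hx'⟩ | ⟨n, hEn, hnQ, o, ho, -, hx'⟩
    · left
      rw [hq1] at hall hx'
      have e1 : (x (kk q + 1)).1 = (x (kk q)).1 ++ wsing (enc (((0 : M), (0 : M), q, wnil) : Op M)) := by
        rw [hx']
      refine ⟨hall, ?_, ?_⟩
      · rw [e1, hst, stepC_zero]
      · show ¬ (dec ((x (kk q + 1)).1.get (x (kk q)).1.len) : Op M).1 ≠ 0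
        rw [e1, get_snoc, dec_enc]
        exact fun h => h rfl
    · right
      rw [hq1] at hnQ ho hx'
      have e1 : (x (kk q + 1)).1 = (x (kk q)).1 ++ wsing (enc o) := by rw [hx']
      have e2 : (if o.1 = 1 then q else q + 1) = q + 1 := by
        have h := hq2
        rw [hx'] at h
        exact h
      refine ⟨n, hEn, hnQ, ?_⟩
      rcases mem_cand hTr.hU (hrec0 _) ho with rfl | ⟨t, ht, rfl⟩
      · exfalso
        rw [if_pos rfl] at e2
        exact absurd e2 (lt_add_of_pos_right q one_pos).ne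
      · refine ⟨t, ht, ?_, ?_⟩
        · rw [e1, hst, stepC_two]
          rfl
        · show (dec ((x (kk q + 1)).1.get (x (kk q)).1.len) : Op M).1 ≠ 0
          rw [e1, get_snoc, dec_enc]
          exact two_ne_zero
  have hinit : cnd a U C0 (x 0).1 = C0 := by rw [hTr.x0]; exact hc0
  have hbase : ∀ k, (cnd a U C0 (x k).1).s ∈ W (a + 2) (cnd a U C0 (x k).1).s.len ∧
      Legal a (cnd a U C0 (x k).1).s ∧ Cl a C0.D (cnd a U C0 (x k).1).s := by
    intro k
    have h := hE 0 k (zero_le' k)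
    rw [hinit] at h
    obtain ⟨t, ht, hs, hl, hcl, -⟩ := (h4 M a _ _).1 h
    rw [hs0, nil_append] at hs
    rw [hs]
    exact ⟨ht, hl, hcl⟩
  refine ⟨fun k => (cnd a U C0 (x k).1).s, kk, dd, ?_⟩
  refine
    { rs := hrc.s
      rk := hkkR
      rd := hddR
      ext := ?_
      word := fun k => (hbase k).1
      legal := fun k => (hbase k).2.1
      cl := fun k => (hbase k).2.2
      mono := ?_
      clo := ?_
      yes := ?_
      no := ?_ }
  · intro k k' hk
    exact ⟨_, (hE k k' hk).1⟩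
  · intro q q' hqq
    by_contra hcon
    have h5 := snd_mono (R := R₂) hx hN _ _ (not_lt.1 hcon)
    rw [(hkk q).1, (hkk q').1] at h5
    exact absurd hqq (not_lt.2 h5)
  · intro q hfs
    rcases step q with ⟨hall, -, -⟩ | ⟨n, -, -, t, ht, hs, -⟩
    · exfalso
      obtain ⟨n, hn, hnq⟩ := h2 M R₀ a U _ q hTr.ha hTr.hU (hrec0 _) (hOk _) (hInf (kk q)) hLin hfs
      exact hnq (hall n hn)
    · have h5 := ht.2.2.2
      unfold Ques at h5
      rw [if_pos hfs] at h5
      obtain ⟨i, hi, hti⟩ := h5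
      refine ⟨(cnd a U C0 (x (kk q)).1).s.len + i, le_self_add, ?_, ?_⟩
      · show _ < (cnd a U C0 (x (kk q + 1)).1).s.len
        rw [hs, len_append]
        exact add_lt_add_right hi _
      · show (cnd a U C0 (x (kk q + 1)).1).s.get _ = a + 1
        rw [hs, get_append_right]
        exact hti
  · intro q hfs hdd
    rcases step q with ⟨-, -, hnd⟩ | ⟨n, -, -, t, ht, hs, -⟩
    · exact absurd hdd hnd
    · have h5 := ht.2.2.2
      unfold Ques at h5
      rw [if_neg hfs] at h5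
      show U q (cnd a U C0 (x (kk q + 1)).1).s
      rw [hs]
      exact h5
  · intro q hfs hdd k hk
    rcases step q with ⟨-, hY, -⟩ | ⟨n, -, -, t, -, -, hd⟩
    · have h5 := hE (kk q + 1) k (succ_le.2 hk)
      rw [hY] at h5
      refine h3 M R₀ a U _ _ q hTr.ha hTr.hU (hrec0 _) (hOk _) hfs h5 ?_
      obtain ⟨m, -, hEm⟩ := hInf k 0
      have h6 := (hOk (x k).1).dense m hEm
      have h7 := hpow_pos hTr.ha m
      have h8 : 0 < cnt a m (cnd a U C0 (x k).1).D := by
        rw [pos_iff]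
        intro h0
        rw [h0, zero_mul] at h6
        exact absurd h7 (not_lt.2 h6)
      unfold cnt at h8
      obtain ⟨z, hz⟩ := card_pos.1 h8
      exact ⟨z, ((mem_filter (hrec0 (x k).1).D).1 hz).2⟩
    · exact absurd hd hdd

end Pool.Agent.OVW.FC
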