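import Pool.Agent.OVW.StmtsC

/-!
# OVW, block C, NST: the starts of the variable words
-/

set_option autoImplicit false
set_option linter.unusedSectionVars false

namespace Pool.Agent.OVW.FC

open Classical

namespace NST

variable {M : Type} [Arith M] [HasWorld M] {R : Set (M → M)} [IsWorld R]

/-- the number of the `i < n` with `f i` -/
noncomputable def cn (f : M → Prop) (n : M) : M := ((rng n).filter f).card

theorem Rec.cn {f : M → Prop} (hf : Rec R f) : Rec R (fun n => cn f n) := by
  unfold NST.cn; fun_prop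

theorem cn_congr {f g : M → Prop} {n : M} (h : ∀ i < n, f i ↔ g i) : cn f n = cn g n := by
  unfold cn
  rw [filter_congr (fun i hi => h i (mem_rng.1 hi))]

theorem cn_zero {f : M → Prop} (hf : Rec R f) : cn f 0 = 0 := by
  unfold cn
  rw [card_eq_zero]
  apply FSet.ext
  intro i
  rw [mem_filter (R := R) hf, mem_rng]
  constructor
  · rintro ⟨h, _⟩
    exact absurd h (not_lt.2 (zero_le' i))
  · intro h
    exact absurd h (not_mem_empty _)

theorem cn_succ {f : M → Prop} (hf : Rec R f) (n : M) :
    cn f (n + 1) = cn f n + (if f n then 1 else 0) := by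
  by_cases h : f n
  · rw [if_pos h]
    have e : (rng (n + 1)).filter f = ((rng n).filter f) ∪ {n} := by
      apply FSet.ext
      intro i
      rw [mem_union, mem_filter (R := R) hf, mem_filter (R := R) hf, mem_singleton, mem_rng,
        mem_rng, lt_succ]
      constructor
      · rintro ⟨h1, h2⟩
        rcases lt_or_eq_of_le h1 with h3 | h3
        · exact Or.inl ⟨h3, h2⟩
        · exact Or.inr h3
      · rintro (⟨h1, h2⟩ | h1)
        · exact ⟨h1.le, h2⟩
        · rw [h1]; exact ⟨le_rfl, h⟩
    unfold cn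
    rw [e, card_union, card_singleton]
    intro i hi
    rw [mem_singleton]
    exact ne_of_lt (mem_rng.1 ((mem_filter (R := R) hf).1 hi).1)
  · rw [if_neg h, add_zero]
    unfold cn
    congr 1
    apply FSet.ext
    intro i
    rw [mem_filter (R := R) hf, mem_filter (R := R) hf, mem_rng, mem_rng, lt_succ]
    constructor
    · rintro ⟨h1, h2⟩
      rcases lt_or_eq_of_le h1 with h3 | h3
      · exact ⟨h3, h2⟩
      · exact absurd (h3 ▸ h2) h
    · rintro ⟨h1, h2⟩
      exact ⟨h1.le, h2⟩

theorem cn_add {f : M → Prop} (hf : Rec R f) (m n : M) :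
    cn f (m + n) = cn f m + cn (fun i => f (m + i)) n := by
  have hg : Rec R (fun i => f (m + i)) := by fun_prop
  have h1 := Rec.cn hf
  have h2 := Rec.cn hg
  refine Rec.induction (R := R) (P := fun n => cn f (m + n) = cn f m + cn (fun i => f (m + i)) n)
    ?_ ?_ ?_ n
  · fun_prop
  · rw [add_zero, cn_zero hg, add_zero]
  · intro n ih
    rw [← add_assoc, cn_succ hf, cn_succ hg, ih, add_assoc]

theorem cn_mono {f : M → Prop} (hf : Rec R f) {m n : M} (h : m ≤ n) : cn f m ≤ cn f n := by
  obtain ⟨k, rfl⟩ := exists_add_of_le h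
  rw [cn_add hf]
  exact le_self_add

theorem cn_le {f : M → Prop} (hf : Rec R f) (n : M) : cn f n ≤ n := by
  have h1 := Rec.cn hf
  refine Rec.induction (R := R) (P := fun n => cn f n ≤ n) ?_ ?_ ?_ n
  · fun_prop
  · rw [cn_zero hf]
  · intro n ih
    rw [cn_succ hf]
    split
    · exact add_le_add_left ih 1
    · rw [add_zero]; exact ih.trans (lt_succ.2 le_rfl).le

theorem cn_lt {f : M → Prop} (hf : Rec R f) {i n : M} (hi : i < n) (h : f i) : cn f i < cn f n := by
  have h1 := cn_mono hf (succ_le.2 hi)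
  rw [cn_succ hf, if_pos h] at h1
  exact succ_le.1 h1

theorem cn_ex {f : M → Prop} (hf : Rec R f) (n : M) :
    ∀ j < cn f n, ∃ i < n, f i ∧ cn f i = j := by
  have h1 := Rec.cn hf
  refine Rec.induction (R := R) (P := fun n => ∀ j < cn f n, ∃ i < n, f i ∧ cn f i = j)
    ?_ ?_ ?_ n
  · fun_prop
  · intro j hj
    rw [cn_zero hf] at hj
    exact absurd hj (not_lt.2 (zero_le' j))
  · intro n ih j hj
    by_cases h : j < cn f n
    · obtain ⟨i, h1, h2⟩ := ih j h
      exact ⟨i, lt_trans h1 (lt_succ.2 le_rfl), h2⟩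
    · rw [cn_succ hf] at hj
      split at hj
      · rename_i hn
        exact ⟨n, lt_succ.2 le_rfl, hn, le_antisymm (not_lt.1 h) (lt_succ.1 hj)⟩
      · rw [add_zero] at hj
        exact absurd hj h

theorem recf (R : Set (M → M)) [IsWorld R] (a : M) (s : Wd M) :
    Rec R (fun i => s.get i = a + 1) := by fun_prop

theorem nst_eq (a : M) (s : Wd M) : nst a s = cn (fun i => s.get i = a + 1) s.len := rfl

theorem nst_take (a : M) (s : Wd M) {n : M} (h : n ≤ s.len) :
    nst a (s.take n) = cn (fun i => s.get i = a + 1) n := by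
  rw [nst_eq, len_take, min_eq_left h]
  apply cn_congr
  intro i hi
  rw [get_take hi]

theorem nst_append (R : Set (M → M)) [IsWorld R] (a : M) (s t : Wd M) :
    nst a (s ++ t) = nst a s + nst a t := by
  rw [nst_eq, nst_eq, nst_eq, len_append, cn_add (recf R a (s ++ t))]
  congr 1
  · apply cn_congr
    intro i hi
    rw [get_append_left hi]
  · apply cn_congr
    intro i hi
    rw [get_append_right]

theorem pst_eq (R : Set (M → M)) [IsWorld R] (a : M) (s : Wd M) {i j : M} (hi : i < s.len)
    (h : s.get i = a + 1) (hj : nst a (s.take i) = j) : pst a s j = i := by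
  unfold pst
  apply least_eq
  · exact Or.inr ⟨h, hj⟩
  · intro m hm hc
    rcases hc with hc | ⟨h1, h2⟩
    · exact absurd (lt_trans hm hi) (not_lt.2 hc)
    · rw [nst_take a s (lt_trans hm hi).le] at h2
      rw [nst_take a s hi.le] at hj
      have := cn_lt (recf R a s) hm h1
      rw [h2, hj] at this
      exact absurd this (lt_irrefl _)

theorem take_append_lt (s t : Wd M) {i : M} (hi : i < s.len) : (s ++ t).take i = s.take i :=
  take_append_of_le hi.le

end NST

open NST in
theorem t_NST : StmtNST := by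
  intro M _ _ a s t
  obtain ⟨R, hR⟩ := HasWorld.ex (M := M)
  have key : ∀ j < nst a s, ∃ i < s.len, s.get i = a + 1 ∧ nst a (s.take i) = j := by
    intro j hj
    obtain ⟨i, h1, h2, h3⟩ := cn_ex (recf R a s) s.len j hj
    exact ⟨i, h1, h2, by rw [nst_take a s h1.le]; exact h3⟩
  have hle : nst a s ≤ s.len := cn_le (recf R a s) s.len
  have hpst : ∀ j < nst a s, pst a s j < s.len ∧ s.get (pst a s j) = a + 1 ∧
    nst a (s.take (pst a s j)) = j ∧ pst a (s ++ t) j = pst a s j ∧ j ≤ pst a s j := by
    intro j hj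
    obtain ⟨i, h1, h2, h3⟩ := key j hj
    rw [pst_eq R a s h1 h2 h3]
    refine ⟨h1, h2, h3, ?_, ?_⟩
    · apply pst_eq R a (s ++ t)
      · rw [len_append]; exact lt_of_lt_of_le h1 le_self_add
      · rw [get_append_left h1]; exact h2
      · rw [take_append_lt s t h1]; exact h3
    · rw [← h3, nst_take a s h1.le]
      exact cn_le (recf R a s) i
  refine ⟨nst_append R a s t, hpst, ?_, ?_, ?_⟩
  · intro i hi h
    refine ⟨?_, pst_eq R a s hi h rfl⟩
    rw [nst_take a s hi.le]
    exact cn_lt (recf R a s) hi h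
  · intro j hj
    have hj0 : j < nst a s := lt_trans (lt_succ.2 le_rfl) hj
    obtain ⟨h1, h2, h3, -⟩ := hpst j hj0
    obtain ⟨g1, g2, g3, -⟩ := hpst (j + 1) hj
    by_contra hcon
    have h4 := cn_mono (recf R a s) (not_lt.1 hcon)
    rw [nst_take a s h1.le] at h3
    rw [nst_take a s g1.le] at g3
    rw [h3, g3] at h4
    exact absurd (lt_succ.2 (le_refl j)) (not_lt.2 h4)
  · intro i hi
    unfold gst
    rw [get_append_left (lt_of_lt_of_le hi hle), (hpst i hi).2.2.2.1]

end Pool.Agent.OVW.FC
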