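import Pool.Agent.OVW.StmtsC

/-! # Block C, PI2: some candidate has infinitely many levels -/

namespace Pool.Agent.OVW.FC

open Classical

set_option linter.unusedSectionVars false

namespace PI2

variable {M : Type} [Arith M] [HasWorld M] {R : Set (M → M)} [IsWorld R]
variable {a : M} {U : M → Wd M → Prop} {C : Cnd M}

theorem rec_phi (hU : Rec R (fun p : M × Wd M => U p.1 p.2)) (hC : C.IsRec R) (q : M) :
    Rec R (Phi a U C q) :=
  RecC.Phi (γ := Wd M) hU (C := fun _ => C) hC.recC (q := fun _ => q) (Rec.const q)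
    (t := fun t => t) Rec.id

theorem mem_cand (hU : Rec R (fun p : M × Wd M => U p.1 p.2)) (hC : C.IsRec R) {q n : M}
    {o : Op M} : o ∈ cand a U C q n ↔ o = ((1 : M), n, q, wnil) ∨
      ∃ t ∈ Wlt (a + 2) (n + 1), Phi a U C q t ∧ o = ((2 : M), n, q, t) := by
  unfold cand
  rw [mem_union, mem_singleton, mem_image (R := R) (by fun_prop)]
  constructor
  · rintro (h | ⟨t, ht, h⟩)
    · exact Or.inl h
    · rw [mem_filter (rec_phi hU hC q)] at ht
      exact Or.inr ⟨t, ht.1, ht.2, h.symm⟩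
  · rintro (h | ⟨t, ht, hp, h⟩)
    · exact Or.inl h
    · exact Or.inr ⟨t, (mem_filter (rec_phi hU hC q)).2 ⟨ht, hp⟩, h.symm⟩

theorem two_ne_zero' : (2 : M) ≠ 0 := two_ne_zero

theorem two_ne_one' : (2 : M) ≠ 1 := by
  have h : (1 : M) < 2 := by
    have : (1 : M) + 1 = 2 := one_add_one_eq_two
    rw [← this]
    exact lt_succ.2 le_rfl
  exact h.ne'

theorem stepC_thin (n q : M) : stepC a U ((1 : M), n, q, wnil) C = stepT a n C := by
  unfold stepC
  rw [if_neg one_ne_zero, if_pos rfl]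

theorem stepC_ext (n q : M) (t : Wd M) : stepC a U ((2 : M), n, q, t) C = stepX a n t C := by
  unfold stepC
  rw [if_neg two_ne_zero', if_neg two_ne_one']

end PI2

open PI2 in
theorem t_PI2 (h1 : StmtPI1) : StmtPI2 := by
  intro M _ _ R₀ R₁ _ _ a U C q n hR hj h0 hU hC hok hinf hq
  by_contra hcon
  push Not at hcon
  -- every candidate has a bound
  have hb : ∀ o ∈ cand a U C q n, ∃ b, ∀ m, b < m → ¬ (stepC a U o C).E m := by
    intro o ho
    have h := hcon o ho
    unfold Cnd.Inf at h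
    push Not at h
    exact h
  have r1 : Rec R₀ (fun x : (Op M × M) × M => x.1.2 < x.2 → ¬ (stepC a U x.1.1 C).E x.2) := by
    have h : Rec R₀ (fun x : Op M × M => (stepC a U x.1 C).E x.2) :=
      (RecC.stepC (γ := Op M) hU (C := fun _ => C) hC.recC (o := fun o => o) Rec.id).E
    have h' : Rec R₀ (fun x : (Op M × M) × M => (stepC a U x.1.1 C).E x.2) :=
      Rec.comp (g := fun x : Op M × M => (stepC a U x.1 C).E x.2)
        (f := fun x : (Op M × M) × M => (x.1.1, x.2)) h (by fun_prop)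
    exact Rec.imp (by fun_prop) (Rec.not h')
  have r2 : Rec R₁ (fun x : Op M × M => ∀ m, x.2 < m → ¬ (stepC a U x.1 C).E m) :=
    Rec.jump_all hj (p := fun (x : Op M × M) m => x.2 < m → ¬ (stepC a U x.1 C).E m) r1
  -- collection over the codes
  have hcol : ∃ N : M, ∀ i < (cand a U C q n).bd, ∃ b : M, enc b < N ∧
      ((dec i : Op M) ∈ cand a U C q n → ∀ m, b < m → ¬ (stepC a U (dec i : Op M) C).E m) := by
    apply Rec.collection (R := R₁) (P := fun i b => ((dec i : Op M) ∈ cand a U C q n →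
      ∀ m, b < m → ¬ (stepC a U (dec i : Op M) C).E m))
    · have r3 : Rec R₁ (fun p : M × M => (dec p.1 : Op M) ∈ cand a U C q n) := by fun_prop
      have r4 : Rec R₁ (fun p : M × M => ∀ m, p.2 < m → ¬ (stepC a U (dec p.1 : Op M) C).E m) :=
        Rec.comp (g := fun x : Op M × M => ∀ m, x.2 < m → ¬ (stepC a U x.1 C).E m)
          (f := fun p : M × M => ((dec p.1 : Op M), p.2)) r2 (by fun_prop)
      exact Rec.imp r3 r4
    · intro i _
      by_cases hi : (dec i : Op M) ∈ cand a U C q n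
      · obtain ⟨b, hb⟩ := hb _ hi
        exact ⟨b, fun _ => hb⟩
      · exact ⟨0, fun h => absurd h hi⟩
  obtain ⟨N, hN⟩ := hcol
  have hN' : ∀ o ∈ cand a U C q n, ∀ m, N ≤ m → ¬ (stepC a U o C).E m := by
    intro o ho m hm
    obtain ⟨b, hb1, hb2⟩ := hN (enc o) (FSet.lt_bd ho)
    rw [dec_enc] at hb2
    exact hb2 ho m (hb1.trans_le hm)
  obtain ⟨m, hm, hE⟩ := hinf (N + n)
  have hnm : n < m := lt_of_le_of_lt le_add_self hm
  rcases h1 M R₀ a U C q n h0 hU hC hok hq m hE hnm with h | ⟨t, ht, hp, h⟩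
  · refine hN' ((1 : M), n, q, wnil) ((mem_cand hU hC).2 (Or.inl rfl)) m
      (le_self_add.trans hm.le) ?_
    rw [stepC_thin]
    exact h
  · refine hN' ((2 : M), n, q, t) ((mem_cand hU hC).2 (Or.inr ⟨t, ht, hp, rfl⟩)) (m - t.len) ?_ ?_
    · have htn : t.len ≤ n := lt_succ.1 (mem_Wlt.1 ht).1
      have : N + t.len ≤ m := (add_le_add_right htn N).trans hm.le
      exact le_tsub_of_add_le_right this
    · rw [stepC_ext]
      exact h

end Pool.Agent.OVW.FC
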