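import Pool.Agent.OVW.StmtsC

/-!
# Block C: segments of functions (helper83)
-/

namespace Pool.Agent.OVW.FC

open Classical

namespace SEG

variable {M : Type} [Arith M]

/-- `seg` as a function of the predicate of being a code. -/
noncomputable def segP (P : M → Prop) (n : M) : M :=
  if h : ∃ c, P c ∧ ∀ c' < c, ¬ P c' then pr n h.choose else 0

theorem seg_eq (G : M → M) (n : M) : seg G n = segP (Codes G n) n := rfl

theorem codes_congr {G G' : M → M} {n : M} (h : ∀ i < n, G i = G' i) : Codes G n = Codes G' n := by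
  funext c
  apply propext
  constructor
  · intro hc i hi
    rw [hc i hi, h i hi]
  · intro hc i hi
    rw [hc i hi, h i hi]

variable {R : Set (M → M)} [IsWorld R]

theorem segd {G : M → M} (hG : Rec R G) : Segd G := fun n => IsWorld.beta G hG n

theorem rec_codes {γ : Type} [Cod M γ] {G : γ → M → M} {n : γ → M}
    (hG : Rec R (fun x : γ × M => G x.1 x.2)) (hn : Rec R n) :
    Rec R (fun p : γ × M => Codes (G p.1) (n p.1) p.2) := by
  have h1 : Rec R (fun q : (γ × M) × M => G q.1.1 q.2) :=
    Rec.comp (g := fun x : γ × M => G x.1 x.2) (f := fun q : (γ × M) × M => (q.1.1, q.2)) hG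
      (Rec.prodMk (Rec.fst Rec.fst_) Rec.snd_)
  have h2 : Rec R (fun q : (γ × M) × M => bet q.1.2 q.2 = G q.1.1 q.2) :=
    Rec.eq (Rec.bet (Rec.snd Rec.fst_) Rec.snd_) h1
  exact Rec.ball (P := fun (p : γ × M) (i : M) => bet p.2 i = G p.1 i) (n := fun p : γ × M => n p.1)
    (Rec.comp (g := n) (f := fun p : γ × M => p.1) hn Rec.fst_) h2

theorem seg_least {G : M → M} (hG : Rec R G) (n : M) :
    seg G n = pr n (least (Codes G n)) := by
  have h1 : Rec R (fun c : M => Codes G n c) := by
    have h2 : Rec R (fun q : M × M => bet q.1 q.2 = G q.2) :=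
      Rec.eq (Rec.bet Rec.fst_ Rec.snd_) (Rec.comp (g := G) (f := fun q : M × M => q.2) hG Rec.snd_)
    exact Rec.ball (P := fun (c : M) (i : M) => bet c i = G i) (n := fun _ : M => n)
      (Rec.const n) h2
  have h3 := Rec.lnp h1 (segd hG n)
  obtain ⟨c, hc, hc'⟩ := h3
  have h4 : least (Codes G n) = c := least_eq hc hc'
  have h5 : ∃ c, Codes G n c ∧ ∀ c' < c, ¬ Codes G n c' := ⟨c, hc, hc'⟩
  have h6 : h5.choose = c := by
    obtain ⟨h7, h8⟩ := h5.choose_spec
    rcases lt_trichotomy h5.choose c with h9 | h9 | h9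
    · exact absurd h7 (hc' _ h9)
    · exact h9
    · exact absurd hc (h8 _ h9)
  rw [h4, seg, dif_pos h5, h6]

end SEG

theorem t_SEG : StmtSEG := by
  intro M _ R _
  have : HasWorld M := HasWorld.of R
  refine ⟨fun G G' n h => ?_, fun γ _ G n hG hn => ?_, fun G hG => SEG.segd hG⟩
  · rw [SEG.seg_eq, SEG.seg_eq, SEG.codes_congr h]
  · have h1 : ∀ x, seg (G x) (n x) = pr (n x) (least (fun c => Codes (G x) (n x) c)) := fun x =>
      SEG.seg_least (Rec.ap hG x) (n x)
    have h2 : (fun x => seg (G x) (n x))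
        = fun x => pr (n x) (least (fun c => Codes (G x) (n x) c)) := funext h1
    rw [h2]
    exact Rec.pr hn (Rec.least (P := fun x c => Codes (G x) (n x) c) (SEG.rec_codes hG hn)
      (fun x => SEG.segd (Rec.ap hG x) (n x)))

end Pool.Agent.OVW.FC
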