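import Pool.Agent.OVW.StmtsC

/-!
# Block C, module SEL: recursive selection of a true `Π₁` statement from finitely many
-/

namespace Pool.Agent.OVW.FC

open Classical

set_option linter.unusedSectionVars false

namespace SEL

variable {M : Type} [Arith M] [HasWorld M] {X O : Type} [Cod M X] [Cod M O]

/-- The nodes of the tree. -/
def Nd (cnds : X → FSet M O) (G : X → O → M → Prop) (n c : M) : Prop :=
  (∀ i < n, bet c i ≤ 1) ∧ ∀ i < n, (∃ o ∈ cnds (dec i), o = o) →
    (∀ o ∈ cnds (dec i), pr i (enc o) < n) →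
    (∃ o ∈ cnds (dec i), bet c (pr i (enc o)) = 1) ∧
    ∀ o ∈ cnds (dec i), bet c (pr i (enc o)) = 1 → ∀ t < n, (∃ b < t, ¬ G (dec i) o b) →
      ∀ o' ∈ cnds (dec i), ∃ b < t, ¬ G (dec i) o' b

/-- The characteristic function of the tree. -/
noncomputable def TF (cnds : X → FSet M O) (G : X → O → M → Prop) (m : M) : M :=
  if Nd cnds G (fs m) (sn m) then 0 else 1

theorem TF_pr {cnds : X → FSet M O} {G : X → O → M → Prop} {n c : M} :
    TF cnds G (pr n c) = 0 ↔ Nd cnds G n c := by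
  unfold TF
  rw [fs_pr, sn_pr]
  split_ifs with h
  · exact ⟨fun _ => h, fun _ => rfl⟩
  · exact ⟨fun h' => absurd h' one_ne_zero, fun h' => absurd h' h⟩

/-- The least stage at which the refutation of `G x o` is seen. -/
noncomputable def stg (G : X → O → M → Prop) (n : M) (x : X) (o : O) : M :=
  least (fun b => ¬ G x o b ∨ n ≤ b)

section

variable {R : Set (M → M)} [IsWorld R] {γ : Type} [Cod M γ] {cnds : X → FSet M O}
  {G : X → O → M → Prop}

theorem rec_TF (hc : Rec R cnds) (hG : Rec R (fun p : X × O × M => G p.1 p.2.1 p.2.2)) :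
    Rec R (TF cnds G) := by
  unfold TF Nd
  have h1 : Rec R (fun m : M × M => cnds (dec m.2)) :=
    Rec.comp (g := cnds) (f := fun m : M × M => dec m.2) hc (by fun_prop)
  have h2 : Rec R (fun x : (((M × M) × O) × M) × M => G (dec x.1.1.1.2) x.1.1.2 x.2) :=
    Rec.comp (g := fun p : X × O × M => G p.1 p.2.1 p.2.2)
      (f := fun x : (((M × M) × O) × M) × M => (dec x.1.1.1.2, x.1.1.2, x.2)) hG (by fun_prop)
  have h3 : Rec R (fun x : ((((M × M) × O) × M) × O) × M => G (dec x.1.1.1.1.2) x.1.2 x.2) :=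
    Rec.comp (g := fun p : X × O × M => G p.1 p.2.1 p.2.2)
      (f := fun x : ((((M × M) × O) × M) × O) × M => (dec x.1.1.1.1.2, x.1.2, x.2)) hG
      (by fun_prop)
  have h4 : Rec R (fun x : M => (∀ i < fs x, (∃ o ∈ cnds (dec i), o = o) →
      (∀ o ∈ cnds (dec i), pr i (enc o) < fs x) →
    (∃ o ∈ cnds (dec i), bet (sn x) (pr i (enc o)) = 1) ∧
    ∀ o ∈ cnds (dec i), bet (sn x) (pr i (enc o)) = 1 → ∀ t < fs x, (∃ b < t, ¬ G (dec i) o b) →
      ∀ o' ∈ cnds (dec i), ∃ b < t, ¬ G (dec i) o' b)) := by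
    apply Rec.ball (by fun_prop)
    apply Rec.imp (Rec.fex h1 (by fun_prop))
    apply Rec.imp
    · apply Rec.fall h1
      fun_prop
    apply Rec.and (Rec.fex h1 (by fun_prop))
    apply Rec.fall h1
    apply Rec.imp (by fun_prop)
    apply Rec.ball (by fun_prop)
    apply Rec.imp
    · exact Rec.bex (P := fun (x : ((M × M) × O) × M) b => ¬ G (dec x.1.1.2) x.1.2 b)
        (by fun_prop) (Rec.not h2)
    · apply Rec.fall (S := fun x : ((M × M) × O) × M => cnds (dec x.1.1.2))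
        (p := fun (x : ((M × M) × O) × M) o' => ∃ b < x.2, ¬ G (dec x.1.1.2) o' b)
      · exact Rec.comp (g := fun m : M × M => cnds (dec m.2)) (f := fun x : ((M × M) × O) × M =>
          x.1.1) h1 (by fun_prop)
      · exact Rec.bex (P := fun (x : (((M × M) × O) × M) × O) b => ¬ G (dec x.1.1.1.2) x.2 b)
          (by fun_prop) (Rec.not h3)
  fun_prop

theorem stg_spec (hG : Rec R (fun p : X × O × M => G p.1 p.2.1 p.2.2)) (n : M) (x : X) (o : O) :
    (¬ G x o (stg G n x o) ∨ n ≤ stg G n x o) ∧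
      ∀ b < stg G n x o, ¬ (¬ G x o b ∨ n ≤ b) := by
  apply Rec.least_spec (R := R) (P := fun b => ¬ G x o b ∨ n ≤ b)
  · apply Rec.or _ (by fun_prop)
    apply Rec.not
    exact Rec.comp (g := fun p : X × O × M => G p.1 p.2.1 p.2.2) (f := fun b : M => (x, o, b)) hG
      (by fun_prop)
  · exact ⟨n, Or.inr le_rfl⟩

theorem rec_stg (hG : Rec R (fun p : X × O × M => G p.1 p.2.1 p.2.2)) (n : M) {f : γ → X}
    {g : γ → O} (hf : Rec R f) (hg : Rec R g) : Rec R (fun y => stg G n (f y) (g y)) := by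
  unfold stg
  apply Rec.least (P := fun y b => ¬ G (f y) (g y) b ∨ n ≤ b)
  · apply Rec.or _ (by fun_prop)
    apply Rec.not
    exact Rec.comp (g := fun p : X × O × M => G p.1 p.2.1 p.2.2)
      (f := fun y : γ × M => (f y.1, g y.1, y.2)) hG (by fun_prop)
  · exact fun y => ⟨n, Or.inr le_rfl⟩

theorem btree : BTree (TF cnds G) := by
  refine ⟨?_, ?_, ?_⟩
  · intro n c c' hcc h
    rw [TF_pr] at h ⊢
    obtain ⟨h1, h2⟩ := h
    refine ⟨fun i hi => by rw [← hcc i hi]; exact h1 i hi, ?_⟩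
    intro i hi hne hb
    obtain ⟨⟨o, ho, h3⟩, h4⟩ := h2 i hi hne hb
    refine ⟨⟨o, ho, ?_⟩, ?_⟩
    · rw [← hcc _ (hb o ho)]
      exact h3
    · intro o1 ho1 h5
      apply h4 o1 ho1
      rw [hcc _ (hb o1 ho1)]
      exact h5
  · intro n c m hm h
    rw [TF_pr] at h ⊢
    obtain ⟨h1, h2⟩ := h
    refine ⟨fun i hi => h1 i (hi.trans_le hm), ?_⟩
    intro i hi hne hb
    obtain ⟨h3, h4⟩ := h2 i (hi.trans_le hm) hne (fun o ho => (hb o ho).trans_le hm)
    exact ⟨h3, fun o1 ho1 h5 t ht => h4 o1 ho1 h5 t (ht.trans_le hm)⟩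
  · intro n c h
    rw [TF_pr] at h
    exact h.1

theorem inft (hc : Rec R cnds) (hG : Rec R (fun p : X × O × M => G p.1 p.2.1 p.2.2)) :
    InfT (TF cnds G) := by
  intro n
  let Q : M → Prop := fun m => (dec (sn m) : O) ∈ cnds (dec (fs m)) ∧
    ∀ o' ∈ cnds (dec (fs m)), stg G n (dec (fs m)) o' ≤ stg G n (dec (fs m)) (dec (sn m))
  have hQ : Rec R Q := by
    have h1 : Rec R (fun m : M => cnds (dec (fs m))) :=
      Rec.comp (g := cnds) (f := fun m : M => dec (fs m)) hc (by fun_prop)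
    apply Rec.and (Rec.mem (by fun_prop) h1)
    apply Rec.fall h1
    exact Rec.le (rec_stg hG n (by fun_prop) (by fun_prop))
      (rec_stg hG n (by fun_prop) (by fun_prop))
  have hv : Rec R (fun m : M => if Q m then (1 : M) else 0) := by fun_prop
  obtain ⟨c, hcc⟩ := IsWorld.beta (R := R) _ (rec_iff.1 hv) n
  have hval : ∀ i < n, (bet c i = 1 ↔ Q i) := by
    intro i hi
    rw [hcc i hi]
    split_ifs with h
    · exact ⟨fun _ => h, fun _ => rfl⟩
    · exact ⟨fun h' => absurd h' zero_ne_one, fun h' => absurd h' h⟩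
  refine ⟨c, TF_pr.2 ⟨?_, ?_⟩⟩
  · intro i hi
    rw [hcc i hi]
    split_ifs
    · exact le_rfl
    · exact zero_le_one
  · intro i hi hne hb
    have hQi : ∀ o ∈ cnds (dec i : X), (bet c (pr i (enc o)) = 1 ↔
        ∀ o' ∈ cnds (dec i : X), stg G n (dec i) o' ≤ stg G n (dec i) o) := by
      intro o ho
      rw [hval _ (hb o ho)]
      simp only [Q, fs_pr, sn_pr, dec_enc]
      exact ⟨fun h => h.2, fun h => ⟨ho, h⟩⟩
    constructor
    · obtain ⟨o0, ho0, _⟩ := hne
      obtain ⟨o, ho, h1⟩ := exists_max_onM (R := R) (S := cnds (dec i : X))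
        (f := fun o => stg G n (dec i : X) o)
        (rec_stg hG n (by fun_prop) (by fun_prop)) ⟨o0, ho0⟩
      exact ⟨o, ho, (hQi o ho).2 h1⟩
    · rintro o ho h1 t ht ⟨b, hb1, hb2⟩ o' ho'
      have h2 := (hQi o ho).1 h1 o' ho'
      have h3 : stg G n (dec i : X) o ≤ b := by
        by_contra h4
        exact (stg_spec hG n (dec i : X) o).2 b (not_le.1 h4) (Or.inl hb2)
      have h5 : stg G n (dec i : X) o' < t := (h2.trans h3).trans_lt hb1
      refine ⟨_, h5, ?_⟩
      rcases (stg_spec hG n (dec i : X) o').1 with h6 | h6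
      · exact h6
      · exact absurd (h5.trans ht) (not_lt.2 h6)

end

end SEL

open SEL in
theorem t_SEL (h1 : StmtHAR) (h2 : StmtEXT) : StmtSEL := by
  intro M _ _ R _ hcM hcR X O _ _ cnds G hc hG
  obtain ⟨P, hP1, hP2, hP3⟩ := h1 M R (TF cnds G) hcM hcR (rec_iff.1 (rec_TF hc hG)) btree
    (inft hc hG)
  obtain ⟨hW, hsub, hPm⟩ := h2 M R P hP1 hP3
  haveI := hW
  refine ⟨RIn R P, hW, hsub, fun x => hchoose (cnds x) (fun o => P (pr (enc x) (enc o)) = 1),
    ?_, ?_⟩
  · have hc' : Rec (RIn R P) cnds := hc.mono hsub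
    have hP' : Rec (RIn R P) (fun p : X × O => P (pr (enc p.1) (enc p.2))) :=
      Rec.comp (g := P) (f := fun p : X × O => pr (enc p.1) (enc p.2)) (rec_iff.2 hPm)
        (by fun_prop)
    exact Rec.hchoose hc' (Rec.eq hP' (Rec.const 1))
  · rintro x ⟨o₁, ho₁, hG₁⟩
    have hb : ∀ o ∈ cnds x, pr (enc x) (enc o) < pr (enc x) (cnds x).bd := fun o ho =>
      pr_lt_of (add_lt_add_right (FSet.lt_bd ho) _)
    have hN : (enc x : M) ≤ pr (enc x) (cnds x).bd := le_pr_left _ _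
    have key : ∀ n : M, pr (enc x) (cnds x).bd < n →
        (∃ o ∈ cnds x, P (pr (enc x) (enc o)) = 1) ∧
        ∀ o ∈ cnds x, P (pr (enc x) (enc o)) = 1 → ∀ t < n, (∃ b < t, ¬ G x o b) →
          ∀ o' ∈ cnds x, ∃ b < t, ¬ G x o' b := by
      intro n hn
      obtain ⟨c, hcd⟩ := hP1 n
      have h3 := (TF_pr.1 (hP2 n c hcd)).2 (enc x) (hN.trans_lt hn)
      rw [dec_enc] at h3
      obtain ⟨⟨o, ho, h4⟩, h5⟩ := h3 ⟨o₁, ho₁, rfl⟩ (fun o ho => (hb o ho).trans hn)
      refine ⟨⟨o, ho, ?_⟩, ?_⟩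
      · rw [← hcd _ ((hb o ho).trans hn)]
        exact h4
      · intro o' ho' h6
        apply h5 o' ho'
        rw [hcd _ ((hb o' ho').trans hn)]
        exact h6
    have hS := hchoose_mem (R := RIn R P) (S := cnds x)
      (p := fun o => P (pr (enc x) (enc o)) = 1) (by
        have hP' : Rec (RIn R P) (fun p : O => P (pr (enc x) (enc p))) :=
          Rec.comp (g := P) (f := fun p : O => pr (enc x) (enc p)) (rec_iff.2 hPm) (by fun_prop)
        exact Rec.eq hP' (Rec.const 1)) (key (pr (enc x) (cnds x).bd + 1) (lt_succ.2 le_rfl)).1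
    refine ⟨hS.1, fun b => ?_⟩
    by_contra hb2
    have h7 : pr (enc x) (cnds x).bd < pr (enc x) (cnds x).bd + (b + 1) + 1 :=
      lt_succ.2 le_self_add
    have h8 : b + 1 < pr (enc x) (cnds x).bd + (b + 1) + 1 := lt_succ.2 le_add_self
    obtain ⟨b', _, h9⟩ := (key _ h7).2 _ hS.1 hS.2 (b + 1) h8 ⟨b, lt_succ.2 le_rfl, hb2⟩ o₁ ho₁
    exact h9 (hG₁ b')

end Pool.Agent.OVW.FC
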