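import Pool.Agent.OVW.StmtsC

/-!
# Block C, module UUR: the questions about the jump are recursive and monotone
-/

namespace Pool.Agent.OVW.FC

open Classical

set_option linter.unusedSectionVars false

namespace UUR

variable {M : Type} [Arith M] [HasWorld M] {R : Set (M → M)} [IsWorld R] {γ : Type} [Cod M γ]

theorem rec_nst {a : γ → M} {s : γ → Wd M} (h1 : Rec R a) (h2 : Rec R s) :
    Rec R (fun x => nst (a x) (s x)) := by
  unfold nst
  fun_prop

theorem rec_pst {a j : γ → M} {s : γ → Wd M} (h1 : Rec R a) (h2 : Rec R s) (h3 : Rec R j) :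
    Rec R (fun x => pst (a x) (s x) (j x)) := by
  unfold pst
  have h4 : Rec R (fun x : γ × M => nst (a x.1) ((s x.1).take x.2)) :=
    rec_nst (by fun_prop) (by fun_prop)
  refine Rec.least (P := fun x i => (s x).len ≤ i ∨
    ((s x).get i = a x + 1 ∧ nst (a x) ((s x).take i) = j x)) (by fun_prop) ?_
  exact fun x => ⟨(s x).len, Or.inl le_rfl⟩

theorem rec_gst {a i : γ → M} {s : γ → Wd M} (h1 : Rec R a) (h2 : Rec R s) (h3 : Rec R i) :
    Rec R (fun x => gst (a x) (s x) (i x)) := by
  unfold gst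
  have h4 : Rec R (fun x => pst (a x) (s x) (i x)) := rec_pst h1 h2 h3
  fun_prop

end UUR

open UUR in
theorem t_UUR (h1 : StmtSEG) (h2 : StmtNST) : StmtUUR := by
  intro M _ _ R _ a u hu
  obtain ⟨g1, g2, -⟩ := h1 M R
  refine ⟨?_, ?_⟩
  · unfold UU
    have r1 : Rec R (fun p : M × Wd M => nst a p.2) := rec_nst (by fun_prop) (by fun_prop)
    have r2 : Rec R (fun x : (M × Wd M) × M => seg (gst a x.1.2) x.2) := by
      refine g2 ((M × Wd M) × M) (fun x => gst a x.1.2) (fun x => x.2) ?_ (by fun_prop)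
      exact rec_gst (by fun_prop) (by fun_prop) (by fun_prop)
    fun_prop
  · intro q s t
    obtain ⟨n1, -, -, -, n5⟩ := h2 M a s t
    rintro ⟨n, hn, h⟩
    refine ⟨n, ?_, ?_⟩
    · rw [n1]
      exact hn.trans le_self_add
    · rw [g1 (gst a (s ++ t)) (gst a s) n fun i hi => n5 i (lt_of_lt_of_le hi hn)]
      exact h

end Pool.Agent.OVW.FC
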