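import Pool.Agent.OVW.StmtsC

/-! # Block C, WAP: the instances of a concatenation -/

namespace Pool.Agent.OVW.FC

open Classical

set_option linter.unusedSectionVars false

namespace WAP

variable {M : Type} [Arith M] [HasWorld M] {a : M}

theorem mt_append {s t y₁ y₂ : Wd M} (hl : y₁.len = s.len) (ht : Legal a t) :
    Mt a (s ++ t) (y₁ ++ y₂) ↔ Mt a s y₁ ∧ Mt a t y₂ := by
  have gs : ∀ i, i < s.len → (s ++ t).get i = s.get i := fun i hi => get_append_left hi
  have gy : ∀ i, i < s.len → (y₁ ++ y₂).get i = y₁.get i := fun i hi =>
    get_append_left (by rw [hl]; exact hi)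
  have gs' : ∀ i, (s ++ t).get (s.len + i) = t.get i := fun i => get_append_right i
  have gy' : ∀ i, (y₁ ++ y₂).get (s.len + i) = y₂.get i := by
    intro i
    rw [← hl]
    exact get_append_right i
  have split : ∀ i : M, s.len ≤ i → ∃ i', i = s.len + i' := fun i hi => le_iff_exists_add.1 hi
  constructor
  · rintro ⟨h1, h2, h3⟩
    rw [len_append, append_mem_W_iff hl] at h1
    rw [len_append] at h2 h3
    have lt1 : ∀ i, i < s.len → i < s.len + t.len := fun i hi => hi.trans_le le_self_add
    have lt2 : ∀ i, i < t.len → s.len + i < s.len + t.len := fun i hi => by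
      exact add_lt_add_right hi _
    refine ⟨⟨h1.1, ?_, ?_⟩, ⟨h1.2, ?_, ?_⟩⟩
    · intro i hi h
      have := h2 i (lt1 i hi) (by rw [gs i hi]; exact h)
      rw [gs i hi, gy i hi] at this
      exact this
    · intro i hi h j hj hja hk
      have hj' : j < s.len := hj.trans hi
      have := h3 i (lt1 i hi) (by rw [gs i hi]; exact h) j hj (by rw [gs j hj']; exact hja)
        (fun k hki hjk => by rw [gs k (hki.trans_lt hi)]; exact hk k hki hjk)
      rw [gy i hi, gy j hj'] at this
      exact this
    · intro i hi h
      have := h2 (s.len + i) (lt2 i hi) (by rw [gs' i]; exact h)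
      rw [gs' i, gy' i] at this
      exact this
    · intro i hi h j hj hja hk
      have := h3 (s.len + i) (lt2 i hi) (by rw [gs' i]; exact h) (s.len + j)
        (add_lt_add_right hj _) (by rw [gs' j]; exact hja)
        (fun k hki hjk => by
          obtain ⟨k', rfl⟩ := split k (le_self_add.trans hjk.le)
          rw [gs' k']
          exact hk k' (le_of_add_le_add_left hki) (lt_of_add_lt_add_left hjk))
      rw [gy' i, gy' j] at this
      exact this
  · rintro ⟨⟨h1, h2, h3⟩, ⟨h4, h5, h6⟩⟩
    refine ⟨?_, ?_, ?_⟩
    · rw [len_append]
      exact append_mem_W h1 h4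
    · intro i hi h
      rw [len_append] at hi
      rcases lt_or_ge i s.len with hs | hs
      · rw [gs i hs] at h ⊢
        rw [gy i hs]
        exact h2 i hs h
      · obtain ⟨i', rfl⟩ := split i hs
        rw [gs' i'] at h ⊢
        rw [gy' i']
        exact h5 i' (lt_of_add_lt_add_left hi) h
    · intro i hi h j hj hja hk
      rw [len_append] at hi
      rcases lt_or_ge i s.len with hs | hs
      · have hj' : j < s.len := hj.trans hs
        rw [gs i hs] at h
        rw [gs j hj'] at hja
        rw [gy i hs, gy j hj']
        exact h3 i hs h j hj hja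
          (fun k hki hjk => by rw [← gs k (hki.trans_lt hs)]; exact hk k hki hjk)
      · obtain ⟨i', rfl⟩ := split i hs
        rw [gs' i'] at h
        have hi' : i' < t.len := lt_of_add_lt_add_left hi
        rcases lt_or_ge j s.len with hjs | hjs
        · exfalso
          obtain ⟨j', hj', hja'⟩ := ht i' hi' h
          exact hk (s.len + j') (add_le_add_right hj'.le _) (hjs.trans_le le_self_add)
            (by rw [gs' j']; exact hja')
        · obtain ⟨j', rfl⟩ := split j hjs
          rw [gs' j'] at hja
          rw [gy' i', gy' j']
          exact h6 i' hi' h j' (lt_of_add_lt_add_left hj) hja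
            (fun k hki hjk => by
              rw [← gs' k]
              exact hk (s.len + k) (add_le_add_right hki _) (add_lt_add_right hjk _))

end WAP

theorem t_WAP : StmtWAP := by
  intro M _ _ a s t y ht
  constructor
  · intro h
    have hy : y.len = s.len + t.len := by
      have := (mem_W.1 h.1).1
      rw [len_append] at this
      exact this
    refine ⟨y.take s.len, y.drop s.len, (take_append_drop _ _).symm, ?_⟩
    have hl : (y.take s.len).len = s.len := by
      rw [len_take, hy]
      exact min_eq_left le_self_add
    rw [← WAP.mt_append hl ht, take_append_drop]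
    exact h
  · rintro ⟨y₁, y₂, rfl, h1, h2⟩
    have hl : y₁.len = s.len := (mem_W.1 h1.1).1
    exact (WAP.mt_append hl ht).2 ⟨h1, h2⟩

end Pool.Agent.OVW.FC
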