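import Pool.Agent.OVW.StmtsC

/-!
# WCL: the closed beginnings of a concatenation
-/

namespace Pool.Agent.OVW.FC

open Classical

set_option linter.unusedSectionVars false

/-- WCL. -/
theorem t_WCL (h1 : StmtWAP) (h2 : StmtWLG) : StmtWCL := by
  intro M _ _ a D s t ht
  constructor
  · intro h
    refine ⟨fun i hi hg y hy hM => ?_, fun i hi hg y₁ y₂ hy₁ hy₂ => ?_⟩
    · refine h i (by rw [len_append]; exact hi.trans_le le_self_add) ?_ y hy ?_
      · rw [get_append_left hi, hg]
      · rw [take_append_of_le hi.le]
        exact hM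
    · have hlen : (t.take i).len = i := by rw [len_take, min_eq_left hi.le]
      have hw₂ : y₂ ∈ W a i := by
        have := hy₂.1
        rwa [hlen] at this
      refine h (s.len + i) (by rw [len_append]; exact add_lt_add_right hi _) ?_ (y₁ ++ y₂)
        (append_mem_W hy₁.1 hw₂) ?_
      · rw [get_append_right, hg]
      · rw [take_append_of_ge le_self_add, add_sub_self',
          h1 M a s (t.take i) _ ((h2 M a).2.2.1 t i ht)]
        exact ⟨y₁, y₂, rfl, hy₁, hy₂⟩
  · rintro ⟨ha, hb⟩ i hi hg y hy hM
    rcases lt_or_ge i s.len with h | h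
    · rw [get_append_left h] at hg
      rw [take_append_of_le h.le] at hM
      exact ha i h hg y hy hM
    · obtain ⟨i', rfl⟩ := le_iff_exists_add.1 h
      rw [get_append_right] at hg
      rw [len_append] at hi
      have hi' : i' < t.len := lt_of_add_lt_add_left hi
      rw [take_append_of_ge le_self_add, add_sub_self',
        h1 M a s (t.take i') _ ((h2 M a).2.2.1 t i' ht)] at hM
      obtain ⟨y₁, y₂, rfl, hy₁, hy₂⟩ := hM
      exact hb i' hi' hg y₁ y₂ hy₁ hy₂

end Pool.Agent.OVW.FC
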