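import Pool.Agent.OVW.StmtsC

/-!
# Block C: colourings on codes and on words
-/

set_option autoImplicit false

open Classical

namespace Pool.Agent.OVW.FC

set_option linter.unusedSectionVars false

namespace WCO

variable {M : Type} [Arith M] [HasWorld M] {R : Set (M → M)} [IsWorld R]

theorem bet_wcode (R : Set (M → M)) [IsWorld R] (w : Wd M) : ∀ i < w.len,
    bet (wcode w) i = w.get i := by
  have h : Rec R (fun c : M => ∀ i < w.len, bet c i = w.get i) := by fun_prop
  exact (Rec.least_spec h w.coded).1

theorem rec_wcode : Rec R (fun w : Wd M => wcode w) := by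
  unfold wcode
  exact Rec.least (P := fun (w : Wd M) c => ∀ i < w.len, bet c i = w.get i) (by fun_prop)
    (fun w => w.coded)

end WCO

theorem t_WCO : StmtWCO := by
  intro M _ _ R _ a l f hf hI
  have h1 := WCO.bet_wcode (M := M) R
  have hf' : Rec R f := rec_iff.2 hf
  refine ⟨h1, ?_, ?_, ?_⟩
  · have h2 : Rec R (fun w : Wd M => wcode w) := WCO.rec_wcode
    exact Rec.comp (g := f) hf' (by fun_prop)
  · intro w hw
    apply hI.lt
    intro i hi
    rw [h1 w i hi]
    exact (mem_W.1 hw).2 i hi
  · intro n c hc
    have h3 : ∀ i < n, (wd n (fun i => bet c i)).get i = bet c i := fun i hi =>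
      get_wd (R := R) (f := fun i => bet c i) (by fun_prop) hi
    refine ⟨wd n (fun i => bet c i), mem_W.2 ⟨len_wd _ _, fun i hi => ?_⟩, h3, ?_⟩
    · rw [h3 i hi]
      exact hc i hi
    · rw [len_wd]
      apply hI.ext n c _ hc
      intro i hi
      rw [h1 _ i (by rw [len_wd]; exact hi), h3 i hi]

end Pool.Agent.OVW.FC
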