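import Pool.Agent.OVW.StmtsC

/-!
# Block C, WLG: legal words, instances
-/

namespace Pool.Agent.OVW.FC

open Classical

set_option linter.unusedSectionVars false

namespace WLG

variable {M : Type} [Arith M] [HasWorld M]

theorem legal_nil (a : M) : Legal a wnil := by
  intro i hi
  rw [len_wnil] at hi
  exact absurd hi (by simp)

theorem legal_append {a : M} {s t : Wd M} (hs : Legal a s) (ht : Legal a t) :
    Legal a (s ++ t) := by
  intro i hi h
  rw [len_append] at hi
  rcases lt_or_ge i s.len with h1 | h1
  · rw [get_append_left h1] at h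
    obtain ⟨j, hj, hj'⟩ := hs i h1 h
    exact ⟨j, hj, by rw [get_append_left (hj.trans h1)]; exact hj'⟩
  · obtain ⟨d, rfl⟩ := le_iff_exists_add.1 h1
    rw [get_append_right] at h
    obtain ⟨j, hj, hj'⟩ := ht d (lt_of_add_lt_add_left hi) h
    exact ⟨s.len + j, add_lt_add_right hj _, by rw [get_append_right]; exact hj'⟩

theorem legal_take {a : M} {t : Wd M} (i : M) (ht : Legal a t) : Legal a (t.take i) := by
  intro l hl h
  rw [len_take] at hl
  have h1 := hl.trans_le (min_le_left _ _)
  have h2 := hl.trans_le (min_le_right _ _)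
  rw [get_take h1] at h
  obtain ⟨j, hj, hj'⟩ := ht l h2 h
  exact ⟨j, hj, by rw [get_take (hj.trans h1)]; exact hj'⟩

theorem mt_nil (a : M) (y : Wd M) : Mt a wnil y ↔ y = wnil := by
  constructor
  · rintro ⟨h, -, -⟩
    rw [mem_W, len_wnil] at h
    exact len_eq_zero.1 h.1
  · rintro rfl
    refine ⟨?_, ?_, ?_⟩
    · rw [mem_W]
      refine ⟨rfl, fun i hi => ?_⟩
      rw [len_wnil] at hi
      exact absurd hi (by simp)
    · intro i hi
      rw [len_wnil] at hi
      exact absurd hi (by simp)
    · intro i hi
      rw [len_wnil] at hi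
      exact absurd hi (by simp)

theorem mt_const {a : M} {x y : Wd M} (hx : x ∈ W a x.len) : Mt a x y ↔ y = x := by
  have hx' := (mem_W.1 hx).2
  constructor
  · rintro ⟨h1, h2, -⟩
    have h3 := (mem_W.1 h1).1
    refine Wd.ext' h3 fun i hi => ?_
    rw [h3] at hi
    exact h2 i hi (hx' i hi)
  · rintro rfl
    refine ⟨hx, fun _ _ _ => rfl, ?_⟩
    intro i hi h
    exact absurd (hx' i hi) (by rw [h]; exact lt_irrefl _)

theorem exists_mt {a : M} (ha : 0 < a) (t : Wd M) : ∃ y, Mt a t y := by
  obtain ⟨R, hR⟩ := HasWorld.ex (M := M)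
  have hget : ∀ i < t.len, (wd t.len (fun i => if t.get i < a then t.get i else 0)).get i =
      if t.get i < a then t.get i else 0 := by
    intro i hi
    exact get_wd (R := R) (f := fun i => if t.get i < a then t.get i else 0) (by fun_prop) hi
  refine ⟨wd t.len (fun i => if t.get i < a then t.get i else 0), ?_, ?_, ?_⟩
  · rw [mem_W]
    refine ⟨len_wd _ _, fun i hi => ?_⟩
    rw [hget i hi]
    by_cases h : t.get i < a
    · rw [if_pos h]
      exact h
    · rw [if_neg h]
      exact ha
  · intro i hi h
    rw [hget i hi, if_pos h]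
  · intro i hi h j hj hj' _
    have h1 : ¬ t.get i < a := by
      rw [h]
      exact lt_irrefl _
    have h2 : ¬ t.get j < a := by
      rw [hj']
      exact not_lt.2 le_self_add
    rw [hget i hi, hget j (hj.trans hi), if_neg h1, if_neg h2]

end WLG

open WLG in
/-- WLG: legal words, instances. -/
theorem t_WLG : StmtWLG := by
  intro M _ _ a
  exact ⟨legal_nil a, fun s t hs ht => legal_append hs ht, fun t i ht => legal_take i ht,
    mt_nil a, fun x y hx => mt_const hx, fun ha t _ => exists_mt ha t⟩

end Pool.Agent.OVW.FC
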