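import Pool.Agent.OVW.StmtsC

/-! # Block C, WLI: the word `x ★' w` with one variable -/

namespace Pool.Agent.OVW.FC

open Classical

set_option linter.unusedSectionVars false

namespace WLI

variable {M : Type} [Arith M] [HasWorld M]

/-- Letters of the word `x c v`. -/
theorem get_left (x v : Wd M) (c : M) {i : M} (h : i < x.len) :
    (x ++ wsing c ++ v).get i = x.get i := by
  rw [get_append_left (by rw [len_append]; exact h.trans_le le_self_add), get_append_left h]

theorem get_mid (x v : Wd M) (c : M) : (x ++ wsing c ++ v).get x.len = c := by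
  rw [get_append_left (by rw [len_append, len_wsing]; exact lt_succ.2 le_rfl),
    get_append_right' le_rfl, tsub_self, get_wsing]

theorem get_right (x v : Wd M) (c j : M) : (x ++ wsing c ++ v).get (x.len + 1 + j) = v.get j := by
  have e : x.len + 1 + j = (x ++ wsing c).len + j := by rw [len_append, len_wsing]
  rw [e, get_append_right]

theorem len_eq (x v : Wd M) (c : M) : (x ++ wsing c ++ v).len = x.len + 1 + v.len := by
  rw [len_append, len_append, len_wsing]

theorem cases_pos {n m i : M} (h : i < n + 1 + m) :
    i < n ∨ i = n ∨ ∃ j < m, i = n + 1 + j := by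
  rcases lt_trichotomy i n with h1 | h1 | h1
  · exact Or.inl h1
  · exact Or.inr (Or.inl h1)
  · obtain ⟨j, rfl⟩ := le_iff_exists_add.1 (succ_le.2 h1)
    exact Or.inr (Or.inr ⟨j, lt_of_add_lt_add_left h, rfl⟩)

end WLI

open WLI in
theorem t_WLI (h2 : StmtWLG) : StmtWLI := by
  intro M _ _ a x w ha hx hw
  have hxl : ∀ i < x.len, x.get i < a := (mem_W.1 hx).2
  have hwl : ∀ i < w.len, w.get i < a + 1 := (mem_W.1 hw).2
  have hlen : (x ++ wsing (a + 1) ++ w).len = x.len + 1 + w.len := len_eq x w (a + 1)
  -- the only position with the letter `a + 1`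
  have honly : ∀ i < x.len + 1 + w.len, (x ++ wsing (a + 1) ++ w).get i = a + 1 → i = x.len := by
    intro i hi hget
    rcases cases_pos hi with h | h | ⟨j, hj, rfl⟩
    · rw [get_left x w (a + 1) h] at hget
      have := hxl i h
      rw [hget] at this
      exact absurd this (not_lt.2 le_self_add)
    · exact h
    · rw [get_right] at hget
      have := hwl j hj
      rw [hget] at this
      exact absurd this (lt_irrefl _)
  have ha1 : a < a + 1 := lt_succ.2 le_rfl
  refine ⟨?_, ?_, ?_, ?_⟩
  · refine mem_W.2 ⟨hlen, ?_⟩
    intro i hi
    have ha2 : a + 1 < a + 2 := by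
      have : a + 2 = a + 1 + 1 := by ring
      rw [this]
      exact lt_succ.2 le_rfl
    rcases cases_pos hi with h | h | ⟨j, hj, rfl⟩
    · rw [get_left x w (a + 1) h]
      exact (hxl i h).trans (ha1.trans ha2)
    · rw [h, get_mid]
      exact ha2
    · rw [get_right]
      exact (hwl j hj).trans ha2
  · intro i hi hget
    rw [hlen] at hi
    refine ⟨x.len, ?_, get_mid x w (a + 1)⟩
    rcases cases_pos hi with h | h | ⟨j, hj, rfl⟩
    · rw [get_left x w (a + 1) h] at hget
      have := hxl i h
      rw [hget] at this
      exact absurd this (lt_irrefl _)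
    · rw [h, get_mid] at hget
      rw [hget] at ha1
      exact absurd ha1 (lt_irrefl _)
    · rw [add_assoc]
      exact (lt_succ.2 le_rfl : x.len < x.len + 1).trans_le (by rw [← add_assoc]; exact le_self_add)
  · intro y
    constructor
    · rintro ⟨hy, h3, h4⟩
      rw [hlen] at h3 h4
      rw [hlen] at hy
      obtain ⟨hyl, hya⟩ := mem_W.1 hy
      have hmid : x.len < x.len + 1 + w.len :=
        (lt_succ.2 le_rfl : x.len < x.len + 1).trans_le le_self_add
      refine ⟨y.get x.len, hya _ hmid, ?_⟩
      refine Wd.ext' (by rw [hyl, len_eq, len_wsub]) ?_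
      intro i hi
      rw [hyl] at hi
      rcases cases_pos hi with h | h | ⟨j, hj, rfl⟩
      · rw [get_left _ _ _ h]
        have h5 := h3 i hi
        rw [get_left x w (a + 1) h] at h5
        exact h5 (hxl i h)
      · rw [h, get_mid]
      · rw [get_right, get_wsub hj]
        by_cases hc : w.get j = a
        · rw [if_pos hc]
          refine h4 (x.len + 1 + j) hi (by rw [get_right, hc]) x.len ?_ (get_mid _ _ _) ?_
          · exact (lt_succ.2 le_rfl : x.len < x.len + 1).trans_le le_self_add
          · intro k hk hk' hkk
            have := honly k (hk.trans_lt hi) hkk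
            rw [this] at hk'
            exact absurd hk' (lt_irrefl _)
        · rw [if_neg hc]
          have h5 := h3 (x.len + 1 + j) hi
          rw [get_right] at h5
          exact h5 (lt_of_le_of_ne (lt_succ.1 (hwl j hj)) hc)
    · rintro ⟨c, hc, rfl⟩
      refine ⟨?_, ?_, ?_⟩
      · refine mem_W.2 ⟨by rw [len_eq, len_wsub, hlen], ?_⟩
        intro i hi
        rw [hlen] at hi
        rcases cases_pos hi with h | h | ⟨j, hj, rfl⟩
        · rw [get_left _ _ _ h]
          exact hxl i h
        · rw [h, get_mid]
          exact hc
        · rw [get_right, get_wsub hj]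
          by_cases hc' : w.get j = a
          · rw [if_pos hc']
            exact hc
          · rw [if_neg hc']
            exact lt_of_le_of_ne (lt_succ.1 (hwl j hj)) hc'
      · intro i hi hget
        rw [hlen] at hi
        rcases cases_pos hi with h | h | ⟨j, hj, rfl⟩
        · rw [get_left _ _ _ h, get_left _ _ _ h]
        · rw [h, get_mid] at hget
          exact absurd hget (not_lt.2 le_self_add)
        · rw [get_right] at hget
          rw [get_right, get_right, get_wsub hj, if_neg (ne_of_lt hget)]
      · intro i hi hget j hj hgj _
        rw [hlen] at hi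
        have hj' := honly j (hj.trans hi) hgj
        rw [hj', get_mid]
        rcases cases_pos hi with h | h | ⟨j', hj', rfl⟩
        · rw [get_left _ _ _ h] at hget
          have := hxl i h
          rw [hget] at this
          exact absurd this (lt_irrefl _)
        · rw [h, get_mid] at hget
          rw [hget] at ha1
          exact absurd ha1 (lt_irrefl _)
        · rw [get_right] at hget
          rw [get_right, get_wsub hj', if_pos hget]
  · intro D hD i hi hget y _ hy
    rw [hlen] at hi
    have hi' := honly i hi hget
    subst hi'
    have e : (x ++ wsing (a + 1) ++ w).take x.len = x := by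
      rw [append_assoc]
      exact take_append_left rfl
    rw [e] at hy
    rw [((h2 M a).2.2.2.2.1 x y hx).1 hy]
    exact hD

end Pool.Agent.OVW.FC
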