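import Pool.Agent.OVW.C.FOB
import Pool.Agent.OVW.C.LIN
import Pool.Agent.OVW.C.CLO
import Pool.Agent.OVW.C.COL
import Pool.Agent.OVW.C.EXI
import Pool.Agent.OVW.C.EXR
import Pool.Agent.OVW.C.SEG
import Pool.Agent.OVW.B14.All
import Pool.Agent.OVW.C.FRC
import Pool.Agent.OVW.C.HIS
import Pool.Agent.OVW.C.LI1
import Pool.Agent.OVW.C.LI2
import Pool.Agent.OVW.C.LI3
import Pool.Agent.OVW.C.LOC
import Pool.Agent.OVW.C.MA1
import Pool.Agent.OVW.C.MA2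
import Pool.Agent.OVW.C.MA3
import Pool.Agent.OVW.C.MA4
import Pool.Agent.OVW.C.NST
import Pool.Agent.OVW.C.PI2
import Pool.Agent.OVW.C.SEL
import Pool.Agent.OVW.C.STP
import Pool.Agent.OVW.C.UUR
import Pool.Agent.OVW.C.WAP
import Pool.Agent.OVW.C.WCL
import Pool.Agent.OVW.C.WCO
import Pool.Agent.OVW.C.WLG
import Pool.Agent.OVW.C.WLI
import Pool.Agent.OVW.H.All

/-!
# Block C: the forcing theorem from its last modules and from block B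
-/

namespace Pool.Agent.OVW.FC

theorem t_FO_of (hPI1 : StmtPI1) (hBON : StmtBON) (hDCS : Stmt_DCS) : StmtFO := by
  have hEXR : StmtEXR := t_EXR t_WAP t_WLG (t_WCL t_WAP t_WLG) t_EXI
  have hSEG : StmtSEG := t_SEG
  have hB1 : Stmt_B1 := b14_L1
  have hSTP : StmtSTP := t_STP t_WLG t_EXI
  have hHIS : StmtHIS := t_HIS hSTP t_LOC
  have hCLO : StmtCLO := t_CLO t_WLG (t_WLI t_WLG)
  have hUUR : StmtUUR := t_UUR hSEG t_NST
  have hFOB : StmtFOB := t_FOB t_COL (t_MA1 hHIS (t_PI2 hPI1) (t_SEL stmtHAR stmtEXT))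
    (t_MA2 hHIS hSTP hEXR) (t_MA3 hHIS hBON) (t_MA4 hHIS hCLO (t_FRC t_WLG t_EXI) t_EXI)
    hUUR (t_LI1 t_NST) (t_LI2 t_NST) (t_LI3 hSEG t_NST hUUR) t_WCO
  intro M _ R₀ R₁ hcM hcR w0 w1 hR hj hu a l f ha hf hi
  haveI := w0
  haveI := w1
  haveI : HasWorld M := HasWorld.of R₀
  exact hFOB M R₀ R₁ hcM hcR w0 w1 hR hj hu a l f ha (t_LIN hDCS hB1 R₀ R₁ hR hj a ha) hf hi

end Pool.Agent.OVW.FC
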