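import Pool.Agent.OVW.StmtsC

/-! # Block C: the number of the thinnings in a row is bounded (FC_BON) -/

namespace Pool.Agent.OVW.FC

open Classical

set_option linter.unusedSectionVars false

namespace BON

variable {M : Type} [Arith M] [HasWorld M] {R : Set (M → M)} [IsWorld R]

/-- The indicator of a property of words. -/
noncomputable def jnd (D : Wd M → Prop) (x : Wd M) : KK M := if D x then 1 else 0

@[fun_prop] theorem rec_jnd {γ : Type} [Cod M γ] {D : Wd M → Prop} {f : γ → Wd M}
    (hD : Rec R D) (hf : Rec R f) : Rec R (fun x => jnd D (f x)) := by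
  unfold jnd
  have h : Rec R (fun x => D (f x)) := Rec.comp hD hf
  fun_prop

theorem jnd_nonneg (D : Wd M → Prop) (x : Wd M) : 0 ≤ jnd D x := by
  unfold jnd
  split_ifs
  · exact zero_le_one
  · exact le_rfl

theorem jnd_le (D : Wd M → Prop) (x : Wd M) : jnd D x ≤ 1 := by
  unfold jnd
  split_ifs
  · exact le_rfl
  · exact zero_le_one

theorem jnd_mul_self (D : Wd M → Prop) (x : Wd M) : jnd D x * jnd D x = jnd D x := by
  unfold jnd
  split_ifs
  · exact one_mul _
  · exact zero_mul _

theorem jnd_mul (D D' : Wd M → Prop) (x : Wd M) :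
    jnd D x * jnd D' x = jnd (fun x => D x ∧ D' x) x := by
  unfold jnd
  by_cases h : D x
  · by_cases h' : D' x
    · simp [h, h']
    · simp [h']
  · simp [h]

theorem avg_jnd {a n : M} {D : Wd M → Prop} (hD : Rec R D) :
    havg (W a n) (jnd D) = ((cnt a n D : M) : KK M) / ((hpow a n : M) : KK M) := by
  have h := hpr_eq_card (S := W a n) hD
  rw [card_W] at h
  unfold cnt
  rw [← h]
  rfl

theorem ex_rng {r : M} (hr : 0 < r) : ∃ i, i ∈ rng r := ⟨0, mem_rng.2 hr⟩

/-- Second moment method. -/
theorem moment {S : FSet M (Wd M)} {r : M} {F : M → Wd M → KK M} {η ε : KK M}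
    (hS : ∃ x, x ∈ S) (hr : 0 < r) (hF : Rec R (fun p : M × Wd M => F p.1 p.2))
    (h1 : ∀ i < r, η ≤ havg S (F i)) (hη : 0 ≤ η) (hε : 0 ≤ ε)
    (h2 : ∀ i < r, ∀ j < r, i ≠ j → havg S (fun x => F i x * F j x) ≤ ε)
    (h3 : ∀ i < r, havg S (fun x => F i x * F i x) ≤ 1) :
    η * η ≤ 1 / (r : KK M) + ε := by
  have hr' := ex_rng hr
  have hFi : ∀ i, Rec R (F i) := fun i =>
    Rec.comp (g := fun p : M × Wd M => F p.1 p.2) (f := fun x => (i, x)) hF (by fun_prop)
  have hFx : ∀ x, Rec R (fun i => F i x) := fun x =>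
    Rec.comp (g := fun p : M × Wd M => F p.1 p.2) (f := fun i => (i, x)) hF (by fun_prop)
  have hF' : ∀ (γ : Type) [Cod M γ] (u : γ → M) (v : γ → Wd M), Rec R u → Rec R v →
      Rec R (fun z => F (u z) (v z)) := fun γ _ u v hu hv => Rec.comp2 (h := F) hF hu hv
  have hm : Rec R (fun x => havg (rng r) (fun i => F i x)) := by
    have := hF' (Wd M × M) (fun z => z.2) (fun z => z.1) (by fun_prop) (by fun_prop)
    fun_prop
  -- the first moment
  have e1 : η ≤ havg S (fun x => havg (rng r) (fun i => F i x)) := by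
    rw [havg_comm (R := R) (f := fun x i => F i x)
      (hF' (Wd M × M) (fun z => z.2) (fun z => z.1) (by fun_prop) (by fun_prop))]
    refine le_havg (R := R) ?_ hr' fun i hi => h1 i (mem_rng.1 hi)
    fun_prop
  -- the second moment
  have e2 : havg S (fun x => havg (rng r) (fun i => F i x) * havg (rng r) (fun i => F i x))
      ≤ 1 / (r : KK M) + ε := by
    have e3 : ∀ x, havg (rng r) (fun i => F i x) * havg (rng r) (fun i => F i x) =
        havg (rng r) (fun i => havg (rng r) (fun j => F i x * F j x)) := by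
      intro x
      rw [← havg_mul_right (R := R) _ (hFx x)]
      refine havg_congr fun i _ => ?_
      rw [← havg_mul_left (R := R) _ (hFx x)]
    simp only [e3]
    have hA := hF' ((Wd M × M) × M) (fun z => z.1.2) (fun z => z.1.1) (by fun_prop) (by fun_prop)
    have hB := hF' ((Wd M × M) × M) (fun z => z.2) (fun z => z.1.1) (by fun_prop) (by fun_prop)
    have hC := hF' ((M × M) × Wd M) (fun z => z.1.1) (fun z => z.2) (by fun_prop) (by fun_prop)
    have hD := hF' ((M × M) × Wd M) (fun z => z.1.2) (fun z => z.2) (by fun_prop) (by fun_prop)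
    rw [havg_comm (R := R) (f := fun x i => havg (rng r) (fun j => F i x * F j x))
      (by fun_prop)]
    have e4 : ∀ i ∈ rng r, havg S (fun x => havg (rng r) (fun j => F i x * F j x)) ≤
        1 / (r : KK M) + ε := by
      intro i hi
      have hE := hF' (Wd M × M) (fun z => i) (fun z => z.1) (by fun_prop) (by fun_prop)
      have hG := hF' (Wd M × M) (fun z => z.2) (fun z => z.1) (by fun_prop) (by fun_prop)
      have hH := hF' (M × Wd M) (fun z => i) (fun z => z.2) (by fun_prop) (by fun_prop)
      have hI := hF' (M × Wd M) (fun z => z.1) (fun z => z.2) (by fun_prop) (by fun_prop)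
      rw [havg_comm (R := R) (f := fun x j => F i x * F j x) (by fun_prop)]
      have e5 : havg (rng r) (fun j => havg S (fun x => F i x * F j x)) ≤
          havg (rng r) (fun j => (if j = i then (1 : KK M) else 0) + ε) := by
        refine havg_le_havg (R := R) (by fun_prop) (by fun_prop) fun j hj => ?_
        by_cases hij : j = i
        · subst hij
          rw [if_pos rfl]
          have := h3 j (mem_rng.1 hj)
          linarith
        · rw [if_neg hij, zero_add]
          exact h2 i (mem_rng.1 hi) j (mem_rng.1 hj) (Ne.symm hij)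
      refine e5.trans (le_of_eq ?_)
      rw [havg_add (R := R) (by fun_prop) (by fun_prop), havg_const _ hr']
      congr 1
      have e6 : hsum (rng r) (fun j => if j = i then (1 : KK M) else 0) = 1 := by
        convert hsum_ite_eq hi (1 : KK M)
      unfold havg
      rw [e6, card_rng]
    exact havg_le (R := R) (by fun_prop) hr' e4
  -- the variance
  have e6 : 0 ≤ havg S (fun x => (havg (rng r) (fun i => F i x) * havg (rng r) (fun i => F i x) -
      (2 * η) * havg (rng r) (fun i => F i x)) + η * η) := by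
    refine havg_nonneg (R := R) (by fun_prop) fun x _ => ?_
    nlinarith [sq_nonneg (havg (rng r) (fun i => F i x) - η)]
  rw [havg_add (R := R) (by fun_prop) (by fun_prop), havg_sub (R := R) (by fun_prop) (by fun_prop),
    havg_mul_left (R := R) _ hm, havg_const _ hS] at e6
  nlinarith [mul_le_mul_of_nonneg_left e1 hη]

end BON

open BON in
/-- **BON**. -/
theorem t_BON : StmtBON := by
  intro M _ _ R _ a d r D ν ha hd hD hν h1 h2
  by_cases hr : r = 0
  · subst hr
    have h3 : 0 < d * d := mul_pos hd hd
    exact mul_pos two_pos h3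
  have hr0 : 0 < r := pos_iff_ne_zero.2 hr
  obtain ⟨r', rfl⟩ : ∃ r', r = r' + 1 := by
    obtain ⟨c, hc⟩ := le_iff_exists_add.1 (one_le_iff.2 hr)
    exact ⟨c, by rw [hc, add_comm]⟩
  have hνN : ∀ i < r' + 1, ν i ≤ ν r' := by
    intro i hi
    rcases eq_or_lt_of_le (lt_succ.1 hi) with h | h
    · rw [h]
    · exact (h2 r' (lt_add_of_pos_right _ one_pos) i h).1.le
  set N := ν r' with hN
  have hd' : (0 : KK M) < (d : KK M) := cK_pos.2 hd
  have hpos : ∀ n, (0 : KK M) < ((hpow a n : M) : KK M) := fun n => cK_pos.2 (hpow_pos ha n)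
  have hDt : ∀ i, Rec R (fun x : Wd M => jnd D (x.take (ν i))) := fun i => by fun_prop
  -- the averages
  have havg1 : ∀ i < r' + 1, havg (W a N) (fun x => jnd D (x.take (ν i))) =
      ((cnt a (ν i) D : M) : KK M) / ((hpow a (ν i) : M) : KK M) := by
    intro i hi
    rw [havg_W_take (R := R) ha (hνN i hi) (f := jnd D) (by fun_prop), avg_jnd hD]
  have hpair : ∀ j < r' + 1, ∀ i < j,
      havg (W a N) (fun x => jnd D (x.take (ν i)) * jnd D (x.take (ν j))) ≤
        1 / (8 * ((d : KK M) * (d : KK M))) := by
    intro j hj i hij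
    obtain ⟨h3, h4⟩ := h2 j hj i hij
    have e1 : ∀ x : Wd M, jnd D (x.take (ν i)) * jnd D (x.take (ν j)) =
        jnd (fun y => D y ∧ D (y.take (ν i))) (x.take (ν j)) := by
      intro x
      rw [mul_comm, ← jnd_mul (fun y => D y) (fun y => D (y.take (ν i)))]
      have e2 : (x.take (ν j)).take (ν i) = x.take (ν i) := by
        rw [take_take, min_eq_left h3.le]
      show jnd D (x.take (ν j)) * jnd D (x.take (ν i)) =
        jnd D (x.take (ν j)) * jnd D ((x.take (ν j)).take (ν i))
      rw [e2]
    simp only [e1]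
    have hD2 : Rec R (fun y : Wd M => D y ∧ D (y.take (ν i))) := by
      have : Rec R (fun y : Wd M => D (y.take (ν i))) := Rec.comp hD (by fun_prop)
      fun_prop
    rw [havg_W_take (R := R) ha (hνN j hj) (f := jnd (fun y => D y ∧ D (y.take (ν i))))
      (by fun_prop), avg_jnd hD2]
    rw [div_le_div_iff₀ (hpos _) (by positivity)]
    have h5 := (cK_lt (M := M)).2 h4
    rw [cK_mul, cK_mul, cK_mul, cK_ofNat 8] at h5
    linarith
  have key := moment (R := R) (S := W a N) (r := r' + 1)
    (F := fun i x => jnd D (x.take (ν i))) (η := 1 / (d : KK M))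
    (ε := 1 / (8 * ((d : KK M) * (d : KK M)))) (W_nonempty ha N) hr0 (by fun_prop)
    (fun i hi => by
      show 1 / (d : KK M) ≤ havg (W a N) (fun x => jnd D (x.take (ν i)))
      rw [havg1 i hi, div_le_div_iff₀ hd' (hpos _)]
      have h5 := (cK_le (M := M)).2 (h1 i hi)
      push_cast at h5
      linarith)
    (by positivity) (by positivity)
    (fun i hi j hj hij => by
      rcases lt_or_gt_of_ne hij with h | h
      · exact hpair j hj i h
      · have h6 := hpair i hi j h
        simp only [mul_comm (jnd D (Wd.take (ν i) _))]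
        exact h6)
    (fun i hi => by
      simp only [jnd_mul_self]
      exact havg_le (R := R) (by fun_prop) (W_nonempty ha N) fun x _ => jnd_le D _)
  have hrp : (0 : KK M) < ((r' + 1 : M) : KK M) := cK_pos.2 hr0
  rw [← cK_lt]
  have h7 : ((r' + 1 : M) : KK M) * (7 / 8) ≤ (d : KK M) * d := by
    have h8 : 1 / (d : KK M) * (1 / (d : KK M)) - 1 / (8 * ((d : KK M) * (d : KK M))) =
        (7 / 8) / ((d : KK M) * d) := by
      field_simp
      norm_num
    have h9 : (7 / 8) / ((d : KK M) * d) ≤ 1 / ((r' + 1 : M) : KK M) := by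
      rw [← h8]
      linarith
    rw [div_le_div_iff₀ (by positivity) hrp] at h9
    linarith
  have h10 : (0 : KK M) < (d : KK M) * d := by positivity
  have h11 : ((2 * (d * d) : M) : KK M) = 2 * ((d : KK M) * d) := by
    rw [cK_mul, cK_mul, cK_ofNat 2]
  rw [h11]
  linarith

end Pool.Agent.OVW.FC
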