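import Pool.Agent.OVW.StmtsC

/-!
# FOB: assembly of the forcing theorem
-/

namespace Pool.Agent.OVW.FC

open Classical

set_option linter.unusedSectionVars false

theorem t_FOB (hCOL : StmtCOL) (hMA1 : StmtMA1) (hMA2 : StmtMA2) (hMA3 : StmtMA3)
    (hMA4 : StmtMA4) (hUUR : StmtUUR) (hLI1 : StmtLI1) (hLI2 : StmtLI2) (hLI3 : StmtLI3)
    (hWCO : StmtWCO) : StmtFOB := by
  intro M _ _ R₀ R₁ hcM hcR w0 w1 hR hj ⟨u, hu⟩ a l f ha hL hf hi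
  haveI := w0
  haveI := w1
  obtain ⟨-, hc2, hc3, hc4⟩ := hWCO M R₀ a l f hf hi
  obtain ⟨c, hc, hr, hok, hinf⟩ := hCOL M R₀ R₁ a l (fun w : Wd M => f (pr w.len (wcode w)))
    hR hj ha hc2 hc3
  obtain ⟨hU, -⟩ := hUUR M R₀ a u hu.mem
  obtain ⟨R₂, w2, hR2, x, hx, x0, xs⟩ := hMA1 M R₀ R₁ a (UU a u) _ hcM hcR hR hj ha hU hr hok
  haveI := w2
  have tr : Tr R₀ R₁ R₂ a (UU a u) (Cnd0 a (fun w : Wd M => f (pr w.len (wcode w))) c l) x :=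
    ⟨w0, w1, w2, hR, hR2, hj, ha, hU, hr, hok, hinf, hx, x0, xs⟩
  obtain ⟨i1, i2, i3⟩ := hMA2 M R₀ R₁ R₂ a _ _ x tr
  have i4 := hMA3 M R₀ R₁ R₂ a _ _ x tr i2
  obtain ⟨sk, kk, dd, ht⟩ := hMA4 M R₀ R₁ R₂ a _ _ x tr rfl hL i1 i2 i3 i4
  obtain ⟨g, h, p, hg, hh, hp, hA, hB, hC, hD, hE, hF, hG⟩ := hLI1 M R₂ a _ _ sk kk dd ha ht
  refine ⟨R₂, w2, hR2, h, hh, p, hp, ?_,
    hLI3 M R₀ R₂ a u _ sk kk dd h p (hR.trans hR2) hu ha ht hC hD hh hp⟩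
  refine ⟨?_, hE, hF, fun k => (hG k).2, c, hc, ?_⟩
  · intro i
    rw [hB i]
    split_ifs with hg'
    · exact hg'.le
    · exact le_rfl
  · intro k cc hw hin
    obtain ⟨w, hw1, hw2, hw3⟩ := hc4 (p k) cc hw
    rw [hw3]
    have h5 := hLI2 M R₂ a _ _ sk kk dd g h p ha ht hA hB hC hD k w hw1 ?_ ?_
    · exact h5.2
    · intro i hi' hia
      rw [hw2 i hi']
      exact hin.1 i hi' hia
    · intro i hi' hia j hj1 hj2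
      rw [hw2 i hi', hw2 (p j) (hj1.trans_lt hi')]
      exact hin.2 i hi' hia j hj1 hj2

end Pool.Agent.OVW.FC
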