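import Pool.Agent.OVW.StmtsC

/-! # MA2: all conditions are good, and later conditions extend earlier ones -/

namespace Pool.Agent.OVW.FC

open Classical

set_option linter.unusedSectionVars false

namespace MA2

variable {M : Type} [Arith M] [HasWorld M]

/-- One step of the construction. -/
theorem step (h1 : StmtHIS) (h2 : StmtSTP) (R₀ : Set (M → M)) [IsWorld R₀] {a : M}
    {U : M → Wd M → Prop} {C0 : Cnd M} (ha : 0 < a) (hU : Rec R₀ (fun p : M × Wd M => U p.1 p.2))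
    (hC : C0.IsRec R₀) (ok : C0.Ok a) {x x' : Wd M × M} (hn : Nxt a U C0 x x')
    (hi : (cnd a U C0 x.1).Inf) :
    (cnd a U C0 x'.1).Inf ∧ (cnd a U C0 x.1).Ext a (cnd a U C0 x'.1) := by
  obtain ⟨-, hok, hs⟩ := h1 M R₀ a U C0 ha hU hC ok
  have hR : RecC R₀ (fun h : Wd M => cnd a U C0 h) := RecC.cnd hU hC (h := fun h => h) (by fun_prop)
  have hr : (cnd a U C0 x.1).IsRec R₀ := hR.isRec x.1
  rcases hn with ⟨hq, e⟩ | ⟨n, -, -, o, ho, hinf, e⟩
  · rw [e]
    simp only [hs]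
    obtain ⟨-, hext⟩ := h2 M R₀ a U (cnd a U C0 x.1) ((0 : M), (0 : M), x.2, wnil) ha hU hr
      (hok x.1)
    refine ⟨?_, hext (Or.inl rfl)⟩
    intro b
    obtain ⟨m, hm, hE⟩ := hi b
    refine ⟨m, hm, ?_⟩
    have e1 : stepC a U (((0 : M), (0 : M), x.2, wnil) : Op M) (cnd a U C0 x.1) =
        stepY a U x.2 (cnd a U C0 x.1) := by
      unfold stepC
      simp
    rw [e1]
    exact ⟨hE, hq m hE⟩
  · rw [e]
    simp only [hs]
    obtain ⟨-, hext⟩ := h2 M R₀ a U (cnd a U C0 x.1) o ha hU hr (hok x.1)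
    refine ⟨hinf, hext (Or.inr ?_)⟩
    have hP : Rec R₀ (Phi a U (cnd a U C0 x.1) x.2) :=
      RecC.Phi (C := fun _ : Wd M => cnd a U C0 x.1) hU hr.recC (by fun_prop) (by fun_prop)
    unfold cand at ho
    rw [mem_union, mem_singleton, mem_image (R := R₀) (by fun_prop)] at ho
    rcases ho with e2 | ⟨t, ht, e2⟩
    · left
      rw [e2]
    · right
      rw [mem_filter hP] at ht
      rw [← e2]
      exact ht.2

/-- Recursiveness of the matrix of `Ext`. -/
theorem rec_ext {R : Set (M → M)} [IsWorld R] {S : M → Wd M} {D : M → Wd M → Prop} (a k : M)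
    (hS : Rec R S) (hD : Rec R (fun p : M × Wd M => D p.1 p.2)) :
    Rec R (fun p : M × Wd M => S (k + p.1) = S k ++ (S (k + p.1)).drop (S k).len ∧
      (S (k + p.1)).drop (S k).len ∈ W (a + 2) ((S (k + p.1)).drop (S k).len).len ∧
      Legal a ((S (k + p.1)).drop (S k).len) ∧ Cl a (D k) ((S (k + p.1)).drop (S k).len) ∧
      (D (k + p.1) p.2 → Dt a (D k) ((S (k + p.1)).drop (S k).len) p.2)) := by
  have h1 : Rec R (fun p : (M × Wd M) × Wd M => D k p.2) :=
    Rec.comp (g := fun p : M × Wd M => D p.1 p.2) (f := fun p : (M × Wd M) × Wd M => (k, p.2)) hD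
      (by fun_prop)
  have h2 : Rec R (fun p : M × Wd M => D (k + p.1) p.2) :=
    Rec.comp (g := fun p : M × Wd M => D p.1 p.2) (f := fun p : M × Wd M => (k + p.1, p.2)) hD
      (by fun_prop)
  have h3 : Rec R (fun p : M × Wd M => (S (k + p.1)).drop (S k).len) := by fun_prop
  have h4 : Rec R (fun p : M × Wd M => Cl a (D k) ((S (k + p.1)).drop (S k).len)) :=
    Rec.Cl (D := fun _ => D k) (by fun_prop) h1 h3
  have h5 : Rec R (fun p : M × Wd M => Dt a (D k) ((S (k + p.1)).drop (S k).len) p.2) :=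
    Rec.Dt (D := fun _ => D k) (by fun_prop) h1 h3 (by fun_prop)
  fun_prop

end MA2

theorem t_MA2 (h1 : StmtHIS) (h2 : StmtSTP) (h3 : StmtEXR) : StmtMA2 := by
  intro M _ _ R₀ R₁ R₂ a U C0 x T
  have := T.w0
  have := T.w1
  have := T.w2
  have hU2 : Rec R₂ (fun p : M × Wd M => U p.1 p.2) := T.s2 (T.s1 T.hU)
  have hC2 : C0.IsRec R₂ := ⟨T.s2 (T.s1 T.hC.D), T.s2 (T.s1 T.hC.E)⟩
  have hx := T.hx
  have hR : RecC R₂ (fun k => cnd a U C0 (x k).1) :=
    RecC.cnd hU2 hC2 (h := fun k => (x k).1) (by fun_prop)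
  have hR0 : RecC R₀ (fun h : Wd M => cnd a U C0 h) :=
    RecC.cnd T.hU T.hC (h := fun h => h) (by fun_prop)
  obtain ⟨h0, hok, -⟩ := h1 M R₀ a U C0 T.ha T.hU T.hC T.ok
  -- all conditions are good
  have hInf : ∀ k, (cnd a U C0 (x k).1).Inf := by
    have hq : Rec R₁ (fun p : Wd M × M => ∃ m, p.2 < m ∧ (cnd a U C0 p.1).E m) := by
      apply Rec.jump_ex (R₀ := R₀) T.j1 (p := fun (p : Wd M × M) m => p.2 < m ∧
        (cnd a U C0 p.1).E m)
      have h4 : Rec R₀ (fun p : (Wd M × M) × M => (cnd a U C0 p.1.1).E p.2) :=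
        Rec.comp (g := fun p : Wd M × M => (cnd a U C0 p.1).E p.2)
          (f := fun p : (Wd M × M) × M => (p.1.1, p.2)) hR0.E (by fun_prop)
      fun_prop
    have hq2 : Rec R₂ (fun p : M × M => ∃ m, p.2 < m ∧ (cnd a U C0 (x p.1).1).E m) :=
      Rec.comp (g := fun p : Wd M × M => ∃ m, p.2 < m ∧ (cnd a U C0 p.1).E m)
        (f := fun p : M × M => ((x p.1).1, p.2)) (T.s2 hq) (by fun_prop)
    apply ind_pi1 (R := R₂) (q := fun k b => ∃ m, b < m ∧ (cnd a U C0 (x k).1).E m) hq2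
    · intro b
      rw [T.x0]
      simp only [h0]
      exact T.inf b
    · intro k hk
      exact (MA2.step h1 h2 R₀ T.ha T.hU T.hC T.ok (T.xs k hk) hk).1
  have hN : ∀ k, Nxt a U C0 (x k) (x (k + 1)) := fun k => T.xs k (hInf k)
  refine ⟨hInf, hN, ?_⟩
  intro k k' hkk
  obtain ⟨j, rfl⟩ := exists_add_of_le hkk
  have hkey := ind_pi1 (R := R₂) (q := fun j z =>
      (cnd a U C0 (x (k + j)).1).s = (cnd a U C0 (x k).1).s ++
        ((cnd a U C0 (x (k + j)).1).s).drop (cnd a U C0 (x k).1).s.len ∧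
      ((cnd a U C0 (x (k + j)).1).s).drop (cnd a U C0 (x k).1).s.len ∈
        W (a + 2) (((cnd a U C0 (x (k + j)).1).s).drop (cnd a U C0 (x k).1).s.len).len ∧
      Legal a (((cnd a U C0 (x (k + j)).1).s).drop (cnd a U C0 (x k).1).s.len) ∧
      Cl a (cnd a U C0 (x k).1).D
        (((cnd a U C0 (x (k + j)).1).s).drop (cnd a U C0 (x k).1).s.len) ∧
      ((cnd a U C0 (x (k + j)).1).D z → Dt a (cnd a U C0 (x k).1).D
        (((cnd a U C0 (x (k + j)).1).s).drop (cnd a U C0 (x k).1).s.len) z))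
    (MA2.rec_ext (S := fun k => (cnd a U C0 (x k).1).s) (D := fun k => (cnd a U C0 (x k).1).D)
      a k hR.s hR.D)
  have hE : ∀ j, (∀ z, ((cnd a U C0 (x (k + j)).1).s = (cnd a U C0 (x k).1).s ++
        ((cnd a U C0 (x (k + j)).1).s).drop (cnd a U C0 (x k).1).s.len ∧
      ((cnd a U C0 (x (k + j)).1).s).drop (cnd a U C0 (x k).1).s.len ∈
        W (a + 2) (((cnd a U C0 (x (k + j)).1).s).drop (cnd a U C0 (x k).1).s.len).len ∧
      Legal a (((cnd a U C0 (x (k + j)).1).s).drop (cnd a U C0 (x k).1).s.len) ∧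
      Cl a (cnd a U C0 (x k).1).D
        (((cnd a U C0 (x (k + j)).1).s).drop (cnd a U C0 (x k).1).s.len) ∧
      ((cnd a U C0 (x (k + j)).1).D z → Dt a (cnd a U C0 (x k).1).D
        (((cnd a U C0 (x (k + j)).1).s).drop (cnd a U C0 (x k).1).s.len) z))) ↔
      (cnd a U C0 (x k).1).Ext a (cnd a U C0 (x (k + j)).1) := by
    intro j
    constructor
    · intro h
      obtain ⟨g1, g2, g3, g4, -⟩ := h wnil
      exact ⟨g1, g2, g3, g4, fun z => (h z).2.2.2.2⟩
    · rintro ⟨g1, g2, g3, g4, g5⟩ z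
      exact ⟨g1, g2, g3, g4, g5 z⟩
  refine (hE j).1 (hkey ?_ ?_ j)
  · refine (hE 0).2 ?_
    rw [add_zero]
    exact (h3 M a).1 _ (hok _).dom
  · intro j hj
    refine (hE (j + 1)).2 ?_
    have g1 := (hE j).1 hj
    have g2 := (MA2.step h1 h2 R₀ T.ha T.hU T.hC T.ok (hN (k + j)) (hInf (k + j))).2
    rw [← add_assoc]
    exact (h3 M a).2 _ _ _ g1 g2

end Pool.Agent.OVW.FC
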