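import Pool.Agent.OVW.StmtsC

/-!
# PI1: the pigeonhole principle for one level
-/

namespace Pool.Agent.OVW.FC

open Classical

set_option linter.unusedSectionVars false

namespace PI1

variable {M : Type} [Arith M] [HasWorld M] {R : Set (M → M)} [IsWorld R]

theorem cast8 (d : M) : (((8 * (d * d)) : M) : KK M) = 8 * ((d : KK M) * d) := by
  rw [cK_mul, cK_mul, cK_ofNat]

theorem cast16 (d : M) : (((16 * (d * d)) : M) : KK M) = 16 * ((d : KK M) * d) := by
  rw [cK_mul, cK_mul, cK_ofNat]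

theorem hpr_split (a n k : M) {p : Wd M → Prop} (hp : Rec R p) :
    hpr (W a (n + k)) p = havg (W a k) (fun ζ => hpr (W a n) (fun y => p (y ++ ζ))) := by
  unfold hpr
  rw [havg_W_add (R := R) (f := fun x => if p x then (1 : KK M) else 0) a n k (by fun_prop)]
  rw [havg_comm (R := R)
    (f := fun u v => if p (u ++ v) then (1 : KK M) else 0) (by fun_prop)]

theorem aux (a : M) (ha : 0 < a) (D : Wd M → Prop) (hD : Rec R D) (d : M) (hd : 0 < d)
    (Phi' : Wd M → Prop) (hPhi : Rec R Phi') (n k : M)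
    (hno : ∀ B ∈ (W a n).powerset, (∀ x ∈ B, D x) → hpow a n ≤ B.card * (16 * (d * d)) →
      ∃ t ∈ Wlt (a + 2) (n + 1), Phi' t ∧ ∃ z ∈ W a (n - t.len), ∀ y ∈ W a t.len,
        Mt a t y → y ++ z ∈ B)
    (hbig : hpow a (n + k) ≤ cnt a (n + k) (fun x => D x ∧ D (x.take n)) * (8 * (d * d))) :
    ∃ t ∈ Wlt (a + 2) (n + 1), Phi' t ∧
      hpow a (n + k - t.len) ≤ cnt a (n + k - t.len) (Dt a D t) * dn a d n := by
  have hdK : (0 : KK M) < d := by exact_mod_cast hd
  have hp : Rec R (fun x : Wd M => D x ∧ D (x.take n)) := by fun_prop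
  have hpowK : ∀ l : M, (0 : KK M) < (hpow a l : M) := fun l => by
    exact_mod_cast hpow_pos ha l
  set θ : KK M := 1 / (16 * ((d : KK M) * d)) with hθ
  have hθ0 : 0 < θ := by positivity
  have h1 : 2 * θ ≤ hpr (W a (n + k)) (fun x => D x ∧ D (x.take n)) := by
    rw [hpr_eq_card (R := R) hp, card_W]
    have h : ((hpow a (n + k) : M) : KK M) ≤
        (((W a (n + k)).filter (fun x => D x ∧ D (x.take n))).card : M) *
          (8 * ((d : KK M) * d)) := by
      have := hbig
      unfold cnt at this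
      have h' := cK_le.2 this
      rwa [cK_mul, cast8] at h'
    rw [le_div_iff₀ (hpowK _), hθ]
    calc 2 * (1 / (16 * ((d : KK M) * d))) * ((hpow a (n + k) : M) : KK M)
        ≤ 2 * (1 / (16 * ((d : KK M) * d))) *
          ((((W a (n + k)).filter (fun x => D x ∧ D (x.take n))).card : M) *
            (8 * ((d : KK M) * d))) := by
          gcongr
      _ = _ := by field_simp; ring
  have h2 : hpr (W a (n + k)) (fun x => D x ∧ D (x.take n)) =
      havg (W a k) (fun ζ => hpr (W a n) (fun y => D (y ++ ζ) ∧ D y)) := by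
    rw [hpr_split (R := R) a n k hp]
    refine havg_congr fun ζ _ => hpr_congr fun y hy => ?_
    rw [take_append_left (mem_W.1 hy).1]
  have hg : Rec R (fun ζ : Wd M => hpr (W a n) (fun y => D (y ++ ζ) ∧ D y)) := by fun_prop
  have h3 := hpr_markov (R := R) (S := W a k) (d := 2 * θ)
    (f := fun ζ => hpr (W a n) (fun y => D (y ++ ζ) ∧ D y)) hg
    (fun ζ _ => hpr_le_one (R := R) (by fun_prop)) (W_nonempty ha k) (by positivity) (h2 ▸ h1)
  have e2 : 2 * θ / 2 = θ := by ring
  rw [e2] at h3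
  have hwnil : (wnil : Wd M) ∈ Wlt (a + 2) (n + 1) := by
    rw [mem_Wlt, len_wnil]
    exact ⟨lt_of_le_of_lt (zero_le' n) (lt_succ.2 le_rfl), fun i hi => absurd hi not_lt_zero⟩
  have hDt : Rec R (fun x : Wd M × Wd M => Dt a D x.1 x.2) := by fun_prop
  -- pigeonhole
  obtain ⟨t, ht, h4⟩ := hpr_pigeon (R := R) (S := W a k) (T := Wlt (a + 2) (n + 1))
    (p := fun ζ => θ ≤ hpr (W a n) (fun y => D (y ++ ζ) ∧ D y))
    (q := fun ζ t => Phi' t ∧ ∃ z ∈ W a (n - t.len), Dt a D t (z ++ ζ))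
    (by fun_prop) (by fun_prop) ⟨wnil, hwnil⟩ (by
      intro ζ hζ hle
      have hr : Rec R (fun y : Wd M => D (y ++ ζ) ∧ D y) := by fun_prop
      obtain ⟨t, ht, hPt, z, hz, hB⟩ := hno ((W a n).filter (fun y => D (y ++ ζ) ∧ D y))
        (by
          rw [mem_powerset]
          intro y hy
          exact ((mem_filter (R := R) hr).1 hy).1)
        (fun y hy => ((mem_filter (R := R) hr).1 hy).2.2)
        (by
          rw [hpr_eq_card (R := R) hr, card_W, le_div_iff₀ (hpowK _), hθ] at hle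
          have h5 : ((hpow a n : M) : KK M) ≤
              (((W a n).filter (fun y => D (y ++ ζ) ∧ D y)).card : M) *
                (16 * ((d : KK M) * d)) := by
            have h6 : (0 : KK M) < 16 * ((d : KK M) * d) := by positivity
            calc ((hpow a n : M) : KK M)
                = (1 / (16 * ((d : KK M) * d)) * (hpow a n : M)) *
                    (16 * ((d : KK M) * d)) := by
                  field_simp
              _ ≤ _ := by gcongr
          rw [← cast16, ← cK_mul] at h5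
          exact cK_le.1 h5)
      refine ⟨t, ht, hPt, z, hz, ?_, ?_⟩
      · rw [len_append, (mem_W.1 hz).1, (mem_W.1 hζ).1]
        exact append_mem_W hz hζ
      · intro y hy hm
        have h7 := ((mem_filter (R := R) hr).1 (hB y hy hm)).2.1
        rwa [append_assoc] at h7)
  have hcT : (0 : KK M) < ((Wlt (a + 2) (n + 1)).card : M) := card_cast_pos ⟨wnil, hwnil⟩
  have hq : Rec R (fun ζ : Wd M => Phi' t ∧ ∃ z ∈ W a (n - t.len), Dt a D t (z ++ ζ)) := by
    fun_prop
  have h5 : θ / ((Wlt (a + 2) (n + 1)).card : M) ≤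
      hpr (W a k) (fun ζ => Phi' t ∧ ∃ z ∈ W a (n - t.len), Dt a D t (z ++ ζ)) :=
    (div_le_div_of_nonneg_right h3 hcT.le).trans h4
  obtain ⟨ζ₀, -, hPt, -⟩ := exists_of_hpr_pos (R := R) hq (lt_of_lt_of_le (by positivity) h5)
  refine ⟨t, ht, hPt, ?_⟩
  have htl : t.len ≤ n := lt_succ.1 (mem_Wlt.1 ht).1
  have hlen : n - t.len + k = n + k - t.len := by
    rw [tsub_add_eq_add_tsub htl]
  -- counting
  set S := (W a k).filter (fun ζ => Phi' t ∧ ∃ z ∈ W a (n - t.len), Dt a D t (z ++ ζ)) with hS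
  rw [hpr_eq_card (R := R) hq, card_W, ← hS] at h5
  have h6 : hpow a k ≤ S.card * (16 * (d * d)) * (Wlt (a + 2) (n + 1)).card := by
    have h7 : ((hpow a k : M) : KK M) ≤
        (S.card : M) * (16 * ((d : KK M) * d)) * ((Wlt (a + 2) (n + 1)).card : M) := by
      rw [le_div_iff₀ (hpowK _), hθ] at h5
      have h8 : (0 : KK M) < 16 * ((d : KK M) * d) := by positivity
      calc ((hpow a k : M) : KK M)
          = (1 / (16 * ((d : KK M) * d)) / ((Wlt (a + 2) (n + 1)).card : M) *
              (hpow a k : M)) * (16 * ((d : KK M) * d)) * ((Wlt (a + 2) (n + 1)).card : M) := by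
            field_simp
        _ ≤ _ := by gcongr
    rw [← cast16, ← cK_mul, ← cK_mul] at h7
    exact cK_le.1 h7
  let φ : Wd M → Wd M := fun ζ =>
    hchoose (W a (n - t.len)) (fun z => Dt a D t (z ++ ζ)) ++ ζ
  have hφ : Rec R φ := by
    change Rec R (fun ζ => hchoose (W a (n - t.len)) (fun z => Dt a D t (z ++ ζ)) ++ ζ)
    fun_prop
  have hch : ∀ ζ ∈ S, hchoose (W a (n - t.len)) (fun z => Dt a D t (z ++ ζ)) ∈
      W a (n - t.len) ∧ Dt a D t (φ ζ) := by
    intro ζ hζ
    obtain ⟨-, -, hex⟩ := (mem_filter (R := R) hq).1 hζ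
    exact hchoose_mem (R := R) (p := fun z => Dt a D t (z ++ ζ)) (by fun_prop) hex
  have hinj : ∀ ζ ∈ S, ∀ ζ' ∈ S, φ ζ = φ ζ' → ζ = ζ' := by
    intro ζ hζ ζ' hζ' e
    refine (append_inj e ?_).2
    rw [(mem_W.1 (hch ζ hζ).1).1, (mem_W.1 (hch ζ' hζ').1).1]
  have h9 : S.card = (S.image φ).card :=
    card_bij (R := R) φ hφ (fun ζ hζ => (mem_image (R := R) hφ).2 ⟨ζ, hζ, rfl⟩) hinj
      (fun b hb => (mem_image (R := R) hφ).1 hb)
  have hDt' : Rec R (fun x : Wd M => Dt a D t x) := by fun_prop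
  have h10 : (S.image φ).card ≤ cnt a (n + k - t.len) (Dt a D t) := by
    unfold cnt
    apply card_le_card
    intro b hb
    obtain ⟨ζ, hζ, rfl⟩ := (mem_image (R := R) hφ).1 hb
    refine (mem_filter (R := R) hDt').2 ⟨?_, (hch ζ hζ).2⟩
    have h11 := append_mem_W (hch ζ hζ).1 ((mem_filter (R := R) hq).1 hζ).1
    rwa [hlen] at h11
  rw [← h9] at h10
  calc hpow a (n + k - t.len) ≤ hpow a (n + k) := hpow_mono_right ha tsub_le_self
    _ = hpow a n * hpow a k := hpow_add _ _ _
    _ ≤ hpow a n * (S.card * (16 * (d * d)) * (Wlt (a + 2) (n + 1)).card) := by gcongr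
    _ = S.card * dn a d n := by
      unfold dn
      ring
    _ ≤ cnt a (n + k - t.len) (Dt a D t) * dn a d n := by gcongr

end PI1

theorem t_PI1 : StmtPI1 := by
  intro M _ _ R _ a U C q n ha hU hC hok hQ m hm hnm
  by_cases hT : (stepT a n C).E m
  · exact Or.inl hT
  right
  have hbig : hpow a m ≤ cnt a m (fun x => C.D x ∧ C.D (x.take n)) * (8 * (C.d * C.d)) := by
    by_contra hc
    push Not at hc
    exact hT ⟨hm, hnm, hc⟩
  obtain ⟨k, rfl⟩ := le_iff_exists_add.1 hnm.le
  have hPhi : Rec R (fun t : Wd M => Phi a U C q t) :=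
    RecC.Phi (C := fun _ : Wd M => C) hU (Cnd.IsRec.recC hC) (Rec.const q) Rec.id
  obtain ⟨t, ht, hPt, hcard⟩ := PI1.aux (R := R) a ha C.D hC.D C.d hok.pos
    (fun t => Phi a U C q t) hPhi n k (by
      intro B hB h1 h2
      by_contra hno
      apply hQ
      refine ⟨B, hB, h1, h2, ?_⟩
      intro t ht hPt z hz
      by_contra hne
      push Not at hne
      exact hno ⟨t, ht, hPt, z, hz, fun y hy hm => hne y hy hm⟩) hbig
  refine ⟨t, ht, hPt, ?_, hcard⟩
  have htl : t.len ≤ n + k := (lt_succ.1 (mem_Wlt.1 ht).1).trans le_self_add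
  rw [tsub_add_cancel_of_le htl]
  exact hm

end Pool.Agent.OVW.FC
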